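import Pool.Agent.Helper89.A8.GDefs

/-!
# Basic API for the group-level definitions
-/

set_option autoImplicit false

namespace Pool.Agent.A8

open Matrix
open scoped commutatorElement

universe u

section
variable {G : Type u} [Group G] {π : G →* Gam} {X Y : Subgroup G}
variable {M : Type*} [AddCommGroup M] [Module RG M] {φ : G → M}

theorem HomOn.map_one (h : HomOn π X φ) : φ 1 = 0 := by
  have h1 := h.mul 1 X.one_mem 1 X.one_mem
  rw [mul_one] at h1
  exact left_eq_add.1 h1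

theorem HomOn.map_inv (h : HomOn π X φ) {x : G} (hx : x ∈ X) : φ x⁻¹ = φ x := by
  have h2 := h.mul x hx x⁻¹ (X.inv_mem hx)
  rw [mul_inv_cancel, h.map_one] at h2
  rw [← neg_eq (φ x)]
  exact (neg_eq_of_add_eq_zero_right h2.symm).symm

theorem HomOn.mono (h : HomOn π X φ) (hYX : Y ≤ X) : HomOn π Y φ :=
  ⟨fun x hx y hy => h.mul x (hYX hx) y (hYX hy), fun g x hx => h.conj g x (hYX hx)⟩

theorem HomOn.conj_ker (h : HomOn π X φ) {k x : G} (hk : k ∈ π.ker) (hx : x ∈ X) :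
    φ (k * x * k⁻¹) = φ x := by
  rw [h.conj k x hx, MonoidHom.mem_ker.1 hk, act_one]

theorem HomOn.comp {N : Type*} [AddCommGroup N] [Module RG N] (h : HomOn π X φ)
    (f : M →ₗ[RG] N) : HomOn π X (fun x => f (φ x)) :=
  ⟨fun x hx y hy => by rw [h.mul x hx y hy, map_add],
    fun g x hx => by rw [h.conj g x hx, map_act]⟩

/-- commutators with an element of the group -/
theorem HomOn.comm (h : HomOn π X φ) (hX : X.Normal) (g : G) {x : G} (hx : x ∈ X) :
    φ ⁅g, x⁆ = act (π g) (φ x) + φ x := by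
  rw [commutatorElement_def, h.mul _ (hX.conj_mem x hx g) _ (X.inv_mem hx), h.conj g x hx,
    h.map_inv hx]

/-- the values on `x * y⁻¹` -/
theorem HomOn.map_mul_inv (h : HomOn π X φ) {x y : G} (hx : x ∈ X) (hy : y ∈ X) :
    φ (x * y⁻¹) = φ x + φ y := by
  rw [h.mul x hx _ (X.inv_mem hy), h.map_inv hy]

/-- the kernel of a homomorphism on a normal subgroup -/
def HomOn.kerG (h : HomOn π X φ) : Subgroup G where
  carrier := {x | x ∈ X ∧ φ x = 0}
  one_mem' := ⟨X.one_mem, h.map_one⟩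
  mul_mem' := by
    rintro a b ⟨ha, ha'⟩ ⟨hb, hb'⟩
    exact ⟨X.mul_mem ha hb, by rw [h.mul a ha b hb, ha', hb', add_zero]⟩
  inv_mem' := by
    rintro a ⟨ha, ha'⟩
    exact ⟨X.inv_mem ha, by rw [h.map_inv ha, ha']⟩

theorem HomOn.mem_kerG (h : HomOn π X φ) {x : G} : x ∈ h.kerG ↔ x ∈ X ∧ φ x = 0 := Iff.rfl

theorem HomOn.kerG_le (h : HomOn π X φ) : h.kerG ≤ X := fun _ hx => hx.1

theorem HomOn.kerG_normal (h : HomOn π X φ) (hX : X.Normal) : h.kerG.Normal := by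
  constructor
  rintro x ⟨hx, hx'⟩ g
  exact ⟨hX.conj_mem x hx g, by rw [h.conj g x hx, hx', act_zero]⟩

theorem Kt_normal (π : G →* Gam) (a : Ty) : (Kt π a).Normal := by
  constructor
  intro x hx g
  have h : (Kt π a).map (MulAut.conj g).toMonoidHom ≤ Kt π a := by
    rw [Kt, sSup_eq_iSup', Subgroup.map_iSup]
    refine iSup_le fun R => ?_
    obtain ⟨φ, hR⟩ := R.2
    refine le_trans ?_ (le_iSup _ R)
    rintro _ ⟨y, hy, rfl⟩
    exact hR.normal.conj_mem y hy g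
  exact h ⟨x, hx, rfl⟩

theorem Kt_le (π : G →* Gam) (a : Ty) : Kt π a ≤ π.ker :=
  sSup_le fun _ ⟨_, hR⟩ => hR.le

theorem Loc.le_Kt {R : Subgroup G} {a : Ty} {φ : G → Md a} (h : Loc π R a φ) : R ≤ Kt π a :=
  le_sSup ⟨φ, h⟩

theorem ker_normal (π : G →* Gam) : π.ker.Normal := inferInstance

theorem mem_CK {S : Subgroup G} {x : G} :
    x ∈ CK π S ↔ (∀ y ∈ S, y * x = x * y) ∧ x ∈ π.ker := by
  rw [CK, Subgroup.mem_inf, Subgroup.mem_centralizer_iff]
  rfl

theorem CK_le (π : G →* Gam) (S : Subgroup G) : CK π S ≤ π.ker := inf_le_right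

theorem CK_normal (π : G →* Gam) {S : Subgroup G} (hS : S.Normal) : (CK π S).Normal := by
  have := hS
  rw [CK]
  infer_instance

theorem ZK_le (π : G →* Gam) : ZK π ≤ π.ker := inf_le_right

theorem ZK_normal (π : G →* Gam) : (ZK π).Normal := CK_normal π (ker_normal π)

theorem mem_ZK {x : G} : x ∈ ZK π ↔ (∀ y ∈ π.ker, y * x = x * y) ∧ x ∈ π.ker := mem_CK

theorem ZK_le_CK (π : G →* Gam) {S : Subgroup G} (hS : S ≤ π.ker) : ZK π ≤ CK π S := by
  intro x hx
  rw [mem_ZK] at hx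
  rw [mem_CK]
  exact ⟨fun y hy => hx.1 y (hS hy), hx.2⟩

theorem rjT_le (π : G →* Gam) (a : Ty) (X T : Subgroup G) : rjT π a X T ≤ X := fun _ hx => hx.1

theorem mem_rjT {a : Ty} {X T : Subgroup G} {x : G} :
    x ∈ rjT π a X T ↔ x ∈ X ∧ ∀ φ : G → Md a, HomOn π X φ → (∀ t ∈ T, φ t = 0) → φ x = 0 :=
  Iff.rfl

theorem rjT_normal (π : G →* Gam) (a : Ty) {X : Subgroup G} (hX : X.Normal) (T : Subgroup G) :
    (rjT π a X T).Normal := by
  constructor
  rintro x ⟨hx, hx'⟩ g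
  exact ⟨hX.conj_mem x hx g, fun φ h ht => by rw [h.conj g x hx, hx' φ h ht, act_zero]⟩

theorem GHg_iff {a : Ty} {X T : Subgroup G} : GHg π a X T ↔ rjT π a X T ≤ T :=
  ⟨fun h x hx => h x hx.1 hx.2, fun h x hx hx' => h ⟨hx, hx'⟩⟩

end

section
variable {G : Type u} [Group G] {π : G →* Gam} {R : Subgroup G} {a : Ty} {φ : G → Md a}

/-- a normal subgroup of a local subgroup on which `φ` does not vanish is everything -/
theorem Loc.eq_of (h : Loc π R a φ) {X : Subgroup G} (hX : X.Normal) (hXR : X ≤ R) {x : G}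
    (hx : x ∈ X) (hφ : φ x ≠ 0) : X = R := h.top X hX hXR ⟨x, hx, hφ⟩

/-- a homomorphism of a local subgroup vanishes on `ker φ` if it is nonzero... its kernel is
contained in the kernel of `φ` -/
theorem Loc.ker_le (h : Loc π R a φ) {M : Type*} [AddCommGroup M] [Module RG M] {θ : G → M}
    (hθ : HomOn π R θ) (hne : ∃ x ∈ R, θ x ≠ 0) {x : G} (hx : x ∈ R) (hx0 : θ x = 0) :
    φ x = 0 := by
  by_contra hc
  have := h.top hθ.kerG (hθ.kerG_normal h.normal) hθ.kerG_le ⟨x, ⟨hx, hx0⟩, hc⟩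
  obtain ⟨y, hy, hy'⟩ := hne
  rw [← this] at hy
  exact hy' hy.2

end

end Pool.Agent.A8
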