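import Pool.Agent.Helper89.A8.Defs

/-!
# API for modules and pairings
-/

set_option autoImplicit false
set_option linter.unusedSectionVars false
set_option linter.style.haveILetI false

namespace Pool.Agent.A8

open Matrix

section fix
variable {X Y : Type*} [AddCommGroup X] [Module RG X] [AddCommGroup Y] [Module RG Y]

theorem odd_nsmul {n : ℕ} (hn : Odd n) (x : X) : n • x = x := by
  obtain ⟨k, rfl⟩ := hn
  rw [add_nsmul, one_nsmul, mul_nsmul', two_nsmul]
  have := add_self (k • x)
  rw [this, zero_add]

/-- the sum over the powers of `g` -/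
noncomputable def orb (g : Gam) (n : ℕ) (x : X) : X := ∑ i ∈ Finset.range n, act (g ^ i) x

theorem act_orb {g : Gam} {n : ℕ} (hg : g ^ n = 1) (x : X) : act g (orb g n x) = orb g n x := by
  rcases n with _ | n
  · simp [orb]
  rw [orb, act_sum]
  have h : ∀ i ∈ Finset.range (n + 1), act g (act (g ^ i) x) = act (g ^ (i + 1)) x := by
    intro i _
    rw [← act_mul, pow_succ']
  rw [Finset.sum_congr rfl h, Finset.sum_range_succ, hg, act_one]
  conv_rhs => rw [Finset.sum_range_succ']
  simp

theorem map_orb (f : X →ₗ[RG] Y) (g : Gam) (n : ℕ) (x : X) : f (orb g n x) = orb g n (f x) := by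
  simp [orb, map_sum]

theorem orb_of_fix {g : Gam} {n : ℕ} (hn : Odd n) {x : X} (hx : act g x = x) : orb g n x = x := by
  have h : ∀ i : ℕ, act (g ^ i) x = x := by
    intro i
    induction i with
    | zero => simp
    | succ k ih => rw [pow_succ, act_mul, hx, ih]
  simp only [orb, h, Finset.sum_const, Finset.card_range]
  exact odd_nsmul hn x

/-- fixed vectors of elements of odd order lift -/
theorem exists_fix_lift (f : X →ₗ[RG] Y) {g : Gam} {n : ℕ} (hn : Odd n) (hg : g ^ n = 1) {x : X}
    (hx : act g (f x) = f x) : ∃ x', f x' = f x ∧ act g x' = x' :=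
  ⟨orb g n x, by rw [map_orb, orb_of_fix hn hx], act_orb hg x⟩

theorem nrm4_add (g : Gam) (x y : X) : nrm4 g (x + y) = nrm4 g x + nrm4 g y := by
  simp only [nrm4, act_add]
  abel

theorem map_nrm4 (f : X →ₗ[RG] Y) (g : Gam) (x : X) : f (nrm4 g x) = nrm4 g (f x) := by
  simp [nrm4]

theorem Free15.of_injective (f : X →ₗ[RG] Y) (hf : Function.Injective f) (h : Free15 Y) :
    Free15 X := by
  intro g hg x hx
  apply hf
  rw [map_zero]
  apply h g hg
  rw [← map_act, hx]

theorem Free15.of_surjective (f : X →ₗ[RG] Y) (hf : Function.Surjective f) (h : Free15 X) :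
    Free15 Y := by
  intro g hg y hy
  obtain ⟨x, rfl⟩ := hf y
  obtain ⟨x', h1, h2⟩ := exists_fix_lift f (n := 15) (by decide) (by rw [← hg, pow_orderOf_eq_one]) hy
  rw [← h1, h g hg x' h2, map_zero]

theorem Free15.sub (h : Free15 X) (N : Submodule RG X) : Free15 N :=
  h.of_injective N.subtype N.injective_subtype

theorem Free15.quot (h : Free15 X) (N : Submodule RG X) : Free15 (X ⧸ N) :=
  h.of_surjective N.mkQ N.mkQ_surjective

theorem Hg.of_injective {M : Type*} [AddCommGroup M] [Module RG M] (f : X →ₗ[RG] Y)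
    (hf : Function.Injective f) (h : Hg M Y) : Hg M X := by
  intro x hx
  apply hf
  rw [map_zero]
  apply h
  intro k
  exact hx (k.comp f)

theorem Hg.sub {M : Type*} [AddCommGroup M] [Module RG M] (h : Hg M X) (N : Submodule RG X) :
    Hg M N := h.of_injective N.subtype N.injective_subtype

end fix

/-! ### pairings -/

section pair
variable {X Y Z : Type*} [AddCommGroup X] [Module RG X] [AddCommGroup Y] [Module RG Y]
  [AddCommGroup Z] [Module RG Z] {p : X →+ Y →+ Z}

/-- left kernel modulo `N` -/
def kL (hp : Adm p) (N : Submodule RG Z) : Submodule RG X :=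
  mkSub
    { carrier := {x | ∀ y, p x y ∈ N}
      zero_mem' := fun y => by
        rw [map_zero, AddMonoidHom.zero_apply]; exact N.zero_mem
      add_mem' := fun {a b} ha hb y => by
        rw [map_add, AddMonoidHom.add_apply]; exact N.add_mem (ha y) (hb y)
      neg_mem' := fun {a} ha y => by
        rw [map_neg, AddMonoidHom.neg_apply]; exact N.neg_mem (ha y) }
    (fun g x hx y => by
      have h := hp.equiv g x (act g⁻¹ y)
      rw [act_act_inv] at h
      rw [h]
      exact act_mem g (hx _))

theorem mem_kL (hp : Adm p) {N : Submodule RG Z} {x : X} : x ∈ kL hp N ↔ ∀ y, p x y ∈ N := Iff.rfl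

/-- right kernel modulo `N` -/
def kR (hp : Adm p) (N : Submodule RG Z) : Submodule RG Y :=
  mkSub
    { carrier := {y | ∀ x, p x y ∈ N}
      zero_mem' := fun x => by
        rw [map_zero]; exact N.zero_mem
      add_mem' := fun {a b} ha hb x => by
        rw [map_add]; exact N.add_mem (ha x) (hb x)
      neg_mem' := fun {a} ha x => by
        rw [map_neg]; exact N.neg_mem (ha x) }
    (fun g y hy x => by
      have h := hp.equiv g (act g⁻¹ x) y
      rw [act_act_inv] at h
      rw [h]
      exact act_mem g (hy _))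

theorem mem_kR (hp : Adm p) {N : Submodule RG Z} {y : Y} : y ∈ kR hp N ↔ ∀ x, p x y ∈ N := Iff.rfl

theorem flip_adm (hp : Adm p) : Adm p.flip where
  equiv g x y := hp.equiv g y x
  fix g hg x y hx hy := hp.fix g hg y x hy hx
  four g hg x y := hp.four g hg y x

theorem perfL_flip : PerfL p.flip ↔ PerfR p := Iff.rfl
theorem perfR_flip : PerfR p.flip ↔ PerfL p := Iff.rfl

/-- composition of a pairing with homomorphisms -/
noncomputable def pcomp {X' Y' Z' : Type*} [AddCommGroup X'] [Module RG X'] [AddCommGroup Y'] [Module RG Y']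
    [AddCommGroup Z'] [Module RG Z'] (f : X' →ₗ[RG] X) (g : Y' →ₗ[RG] Y) (h : Z →ₗ[RG] Z')
    (p : X →+ Y →+ Z) : X' →+ Y' →+ Z' :=
  AddMonoidHom.mk' (fun x => AddMonoidHom.mk' (fun y => h (p (f x) (g y))) (fun a b => by
      rw [map_add, map_add, map_add])) (fun a b => by
    ext y
    simp [map_add])

@[simp] theorem pcomp_apply {X' Y' Z' : Type*} [AddCommGroup X'] [Module RG X'] [AddCommGroup Y']
    [Module RG Y'] [AddCommGroup Z'] [Module RG Z'] (f : X' →ₗ[RG] X) (g : Y' →ₗ[RG] Y)
    (h : Z →ₗ[RG] Z') (p : X →+ Y →+ Z) (x : X') (y : Y') :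
    pcomp f g h p x y = h (p (f x) (g y)) := rfl

theorem pcomp_adm {X' Y' Z' : Type*} [AddCommGroup X'] [Module RG X'] [AddCommGroup Y']
    [Module RG Y'] [AddCommGroup Z'] [Module RG Z'] (f : X' →ₗ[RG] X) (g : Y' →ₗ[RG] Y)
    (h : Z →ₗ[RG] Z') (hp : Adm p) : Adm (pcomp f g h p) where
  equiv k x y := by
    rw [pcomp_apply, map_act, map_act, hp.equiv, map_act, pcomp_apply]
  fix k hk x y hx hy := by
    rw [pcomp_apply, hp.fix k hk, map_zero]
    · rw [← map_act, hx]
    · rw [← map_act, hy]
  four k hk x y := by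
    rw [pcomp_apply, map_nrm4, map_nrm4, hp.four k hk, map_zero]

/-- restriction of a pairing to submodules -/
noncomputable abbrev prestr (A : Submodule RG X) (B : Submodule RG Y) (p : X →+ Y →+ Z) : A →+ B →+ Z :=
  pcomp A.subtype B.subtype LinearMap.id p

theorem qp_aux (hp : Adm p) {N : Submodule RG Z} {x x' : X} {y y' : Y} (hx : x - x' ∈ kL hp N)
    (hy : y - y' ∈ kR hp N) :
    (Submodule.Quotient.mk (p x y) : Z ⧸ N) = Submodule.Quotient.mk (p x' y') := by
  rw [Submodule.Quotient.eq]
  have h1 : p x y - p x' y' = p (x - x') y + p x' (y - y') := by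
    rw [map_sub, map_sub, AddMonoidHom.sub_apply]
    abel
  rw [h1]
  exact N.add_mem (hx y) (hy x')

theorem out_sub {N : Submodule RG X} (x : X) :
    (Quotient.out (Submodule.Quotient.mk x : X ⧸ N)) - x ∈ N := by
  rw [← Submodule.Quotient.eq]
  exact Quotient.out_eq' _

/-- the quotient pairing -/
noncomputable def qp (hp : Adm p) (N : Submodule RG Z) :
    (X ⧸ kL hp N) →+ (Y ⧸ kR hp N) →+ (Z ⧸ N) :=
  AddMonoidHom.mk' (fun x => AddMonoidHom.mk' (fun y =>
      (Submodule.Quotient.mk (p (Quotient.out x) (Quotient.out y)) : Z ⧸ N)) (by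
    intro a b
    obtain ⟨a, rfl⟩ := Submodule.Quotient.mk_surjective _ a
    obtain ⟨b, rfl⟩ := Submodule.Quotient.mk_surjective _ b
    rw [← Submodule.Quotient.mk_add, ← Submodule.Quotient.mk_add, ← map_add]
    apply qp_aux hp
    · rw [sub_self]; exact (kL hp N).zero_mem
    · have h1 := out_sub (N := kR hp N) (a + b)
      have h2 := out_sub (N := kR hp N) a
      have h3 := out_sub (N := kR hp N) b
      have h4 := (kR hp N).sub_mem (Submodule.sub_mem _ h1 h2) h3
      convert h4 using 1
      abel)) (by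
    intro a b
    obtain ⟨a, rfl⟩ := Submodule.Quotient.mk_surjective _ a
    obtain ⟨b, rfl⟩ := Submodule.Quotient.mk_surjective _ b
    ext y
    simp only [AddMonoidHom.mk'_apply, AddMonoidHom.add_apply]
    rw [← Submodule.Quotient.mk_add, ← Submodule.Quotient.mk_add, ← AddMonoidHom.add_apply,
      ← map_add]
    apply qp_aux hp
    · have h1 := out_sub (N := kL hp N) (a + b)
      have h2 := out_sub (N := kL hp N) a
      have h3 := out_sub (N := kL hp N) b
      have h4 := (kL hp N).sub_mem (Submodule.sub_mem _ h1 h2) h3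
      convert h4 using 1
      abel
    · rw [sub_self]; exact (kR hp N).zero_mem)

theorem qp_mk (hp : Adm p) (N : Submodule RG Z) (x : X) (y : Y) :
    qp hp N (Submodule.Quotient.mk x) (Submodule.Quotient.mk y) =
      Submodule.Quotient.mk (p x y) :=
  qp_aux hp (out_sub x) (out_sub y)

theorem qp_adm (hp : Adm p) (N : Submodule RG Z) : Adm (qp hp N) where
  equiv g x y := by
    obtain ⟨x, rfl⟩ := Submodule.Quotient.mk_surjective _ x
    obtain ⟨y, rfl⟩ := Submodule.Quotient.mk_surjective _ y
    rw [act_mk, act_mk, qp_mk, qp_mk, hp.equiv, act_mk]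
  fix g hg x y hx hy := by
    have hodd : Odd (orderOf g) := by
      rcases hg with h | h <;> rw [h] <;> decide
    obtain ⟨x, rfl⟩ := Submodule.Quotient.mk_surjective _ x
    obtain ⟨y, rfl⟩ := Submodule.Quotient.mk_surjective _ y
    obtain ⟨x', h1, h2⟩ := exists_fix_lift (kL hp N).mkQ hodd (pow_orderOf_eq_one g) (x := x) hx
    obtain ⟨y', h3, h4⟩ := exists_fix_lift (kR hp N).mkQ hodd (pow_orderOf_eq_one g) (x := y) hy
    rw [Submodule.mkQ_apply, Submodule.mkQ_apply] at h1 h3
    rw [← h1, ← h3, qp_mk, hp.fix g hg x' y' h2 h4]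
    rfl
  four g hg x y := by
    obtain ⟨x, rfl⟩ := Submodule.Quotient.mk_surjective _ x
    obtain ⟨y, rfl⟩ := Submodule.Quotient.mk_surjective _ y
    have h1 := map_nrm4 (kL hp N).mkQ g x
    have h2 := map_nrm4 (kR hp N).mkQ g y
    rw [Submodule.mkQ_apply, Submodule.mkQ_apply] at h1 h2
    rw [← h1, ← h2, qp_mk, hp.four g hg]
    rfl

theorem qp_perfL (hp : Adm p) (N : Submodule RG Z) : PerfL (qp hp N) := by
  intro x hx
  obtain ⟨x, rfl⟩ := Submodule.Quotient.mk_surjective _ x
  rw [Submodule.Quotient.mk_eq_zero, mem_kL]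
  intro y
  have := hx (Submodule.Quotient.mk y)
  rwa [qp_mk, Submodule.Quotient.mk_eq_zero] at this

theorem qp_perfR (hp : Adm p) (N : Submodule RG Z) : PerfR (qp hp N) := by
  intro y hy
  obtain ⟨y, rfl⟩ := Submodule.Quotient.mk_surjective _ y
  rw [Submodule.Quotient.mk_eq_zero, mem_kR]
  intro x
  have := hy (Submodule.Quotient.mk x)
  rwa [qp_mk, Submodule.Quotient.mk_eq_zero] at this

/-- the submodule generated by the values -/
noncomputable def spn (p : X →+ Y →+ Z) : Submodule RG Z := Submodule.span RG {z | ∃ x y, p x y = z}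

theorem mem_spn (x : X) (y : Y) : p x y ∈ spn p := Submodule.subset_span ⟨x, y, rfl⟩

theorem spn_le {N : Submodule RG Z} (h : ∀ x y, p x y ∈ N) : spn p ≤ N :=
  Submodule.span_le.2 (by rintro _ ⟨x, y, rfl⟩; exact h x y)

/-- corestriction of a pairing -/
noncomputable def pcod (p : X →+ Y →+ Z) (N : Submodule RG Z) (h : ∀ x y, p x y ∈ N) : X →+ Y →+ N :=
  AddMonoidHom.mk' (fun x => AddMonoidHom.mk' (fun y => (⟨p x y, h x y⟩ : N)) (fun a b => by
      apply Subtype.ext; simp)) (fun a b => by
    ext y
    simp)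

@[simp] theorem pcod_apply (N : Submodule RG Z) (h : ∀ x y, p x y ∈ N) (x : X) (y : Y) :
    ((pcod p N h x y : N) : Z) = p x y := rfl

theorem pcod_adm (hp : Adm p) (N : Submodule RG Z) (h : ∀ x y, p x y ∈ N) : Adm (pcod p N h) where
  equiv g x y := Subtype.ext (by rw [act_coe]; exact hp.equiv g x y)
  fix g hg x y hx hy := Subtype.ext (hp.fix g hg x y hx hy)
  four g hg x y := Subtype.ext (hp.four g hg x y)

end pair

/-! ### dual modules -/

section dual

/-- the dual module -/
def Du (X : Type*) [AddCommGroup X] [Module RG X] : Type _ := X →+ ZMod 2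

variable {X : Type*} [AddCommGroup X] [Module RG X]

instance : AddCommGroup (Du X) := inferInstanceAs (AddCommGroup (X →+ ZMod 2))
instance : Module (ZMod 2) (Du X) := inferInstanceAs (Module (ZMod 2) (X →+ ZMod 2))
instance : FunLike (Du X) X (ZMod 2) := inferInstanceAs (FunLike (X →+ ZMod 2) X (ZMod 2))
instance : AddMonoidHomClass (Du X) X (ZMod 2) :=
  inferInstanceAs (AddMonoidHomClass (X →+ ZMod 2) X (ZMod 2))
instance [Finite X] : Finite (Du X) := DFunLike.finite (X →+ ZMod 2)

theorem Du.add_apply (f k : Du X) (x : X) : (f + k) x = f x + k x := rfl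
theorem Du.zero_apply (x : X) : (0 : Du X) x = 0 := rfl
@[ext] theorem Du.ext {f k : Du X} (h : ∀ x, f x = k x) : f = k := DFunLike.ext _ _ h

/-- the additive map `x ↦ g x` -/
noncomputable def actHom (g : Gam) : X →+ X := AddMonoidHom.mk' (act g) (act_add g)

/-- the contragredient representation -/
noncomputable def repDu (X : Type*) [AddCommGroup X] [Module RG X] :
    Gam →* Module.End (ZMod 2) (Du X) where
  toFun g := endOf (M := Du X) (fun f => ((f : X →+ ZMod 2).comp (actHom g⁻¹) : X →+ ZMod 2))
    (fun _ _ => rfl)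
  map_one' := by
    ext f x
    change f (act 1⁻¹ x) = f x
    rw [inv_one, act_one]
  map_mul' g h := by
    ext f x
    change f (act (g * h)⁻¹ x) = f (act h⁻¹ (act g⁻¹ x))
    rw [_root_.mul_inv_rev, act_mul]

noncomputable instance : Module RG (Du X) :=
  Module.compHom (Du X) (MonoidAlgebra.lift (ZMod 2) (Module.End (ZMod 2) (Du X)) Gam
    (repDu X)).toRingHom

theorem act_Du (g : Gam) (f : Du X) (x : X) : (act g f) x = f (act g⁻¹ x) := by
  have : act g f = repDu X g f := by
    change (MonoidAlgebra.lift (ZMod 2) (Module.End (ZMod 2) (Du X)) Gam (repDu X))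
      (MonoidAlgebra.of (ZMod 2) Gam g) f = _
    rw [MonoidAlgebra.lift_of]
  rw [this]
  rfl

/-- functionals separate points -/
theorem Du.sep {x : X} (h : ∀ f : Du X, f x = 0) : x = 0 := by
  letI : Module (ZMod 2) X := Module.compHom X (algebraMap (ZMod 2) RG)
  rw [← Module.forall_dual_apply_eq_zero_iff (ZMod 2) x]
  intro f
  exact h f.toAddMonoidHom

/-- a submodule of functionals which separates points is everything -/
theorem Du.eq_top [Finite X] (S : Submodule RG (Du X)) (h : ∀ x : X, (∀ f ∈ S, f x = 0) → x = 0) :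
    S = ⊤ := by
  letI : Module (ZMod 2) X := Module.compHom X (algebraMap (ZMod 2) RG)
  -- compare cardinalities
  letI : Module (ZMod 2) S := Module.compHom S (algebraMap (ZMod 2) RG)
  let e : X →ₗ[ZMod 2] Module.Dual (ZMod 2) S :=
    AddMonoidHom.toZModLinearMap 2 (AddMonoidHom.mk' (fun x =>
      (AddMonoidHom.toZModLinearMap 2 (AddMonoidHom.mk' (fun f : S => (f : Du X) x)
        (fun a b => rfl)) : S →ₗ[ZMod 2] ZMod 2)) (fun a b => by
        ext f
        exact map_add (f : Du X) a b))
  have he : Function.Injective e := by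
    rw [injective_iff_map_eq_zero]
    intro x hx
    apply h
    intro f hf
    exact congrArg (fun k : Module.Dual (ZMod 2) S => k ⟨f, hf⟩) hx
  have hfX : Module.Finite (ZMod 2) X := Module.Finite.of_finite
  have hfS : Module.Finite (ZMod 2) S := Module.Finite.of_finite
  have h1 : Module.finrank (ZMod 2) X ≤ Module.finrank (ZMod 2) (Module.Dual (ZMod 2) S) :=
    LinearMap.finrank_le_finrank_of_injective he
  rw [Subspace.dual_finrank_eq] at h1
  have hDX : Module.finrank (ZMod 2) (Du X) = Module.finrank (ZMod 2) X := by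
    have e1 : Du X ≃ₗ[ZMod 2] Module.Dual (ZMod 2) X :=
      { toFun := fun f => AddMonoidHom.toZModLinearMap 2 (f : X →+ ZMod 2)
        invFun := fun f => f.toAddMonoidHom
        map_add' := fun _ _ => rfl
        map_smul' := fun _ _ => by ext; rfl
        left_inv := fun _ => rfl
        right_inv := fun _ => rfl }
    rw [e1.finrank_eq, Subspace.dual_finrank_eq]
  have hfD : Module.Finite (ZMod 2) (Du X) := Module.Finite.of_finite
  let ι : S →ₗ[ZMod 2] Du X := AddMonoidHom.toZModLinearMap 2 S.subtype.toAddMonoidHom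
  have hι : Function.Injective ι := Subtype.val_injective
  have h2 := LinearMap.finrank_le_finrank_of_injective hι
  have h3 : Module.finrank (ZMod 2) S = Module.finrank (ZMod 2) (Du X) := by omega
  have h4 : Function.Surjective ι :=
    (LinearMap.injective_iff_surjective_of_finrank_eq_finrank h3).1 hι
  rw [eq_top_iff]
  intro f _
  obtain ⟨s, rfl⟩ := h4 f
  exact s.2

theorem Free15.du (h : Free15 X) : Free15 (Du X) := by
  intro g hg f hf
  ext x
  have hg' : g ^ 15 = 1 := by rw [← hg, pow_orderOf_eq_one]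
  have h1 : ∀ i : ℕ, f (act (g ^ i) x) = f x := by
    intro i
    induction i with
    | zero => simp
    | succ k ih =>
      have h2 : (act g f) (act g (act (g ^ k) x)) = f (act (g ^ k) x) := by
        rw [act_Du, act_inv_act]
      rw [pow_succ', act_mul]
      rw [hf] at h2
      rw [h2, ih]
  have h2 : f (orb g 15 x) = f x := by
    rw [orb, map_sum]
    simp only [h1, Finset.sum_const, Finset.card_range]
    generalize f x = c
    revert c
    decide
  rw [← h2, h g hg _ (act_orb hg' x), map_zero]
  rfl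

/-- the dual of a simple module is simple -/
theorem Du.simple [Finite X] (h : IsSimpleModule RG X) : IsSimpleModule RG (Du X) := by
  have hnt : Nontrivial X := IsSimpleModule.nontrivial RG X
  have : Nontrivial (Du X) := by
    obtain ⟨x, hx⟩ := exists_ne (0 : X)
    by_contra hc
    rw [not_nontrivial_iff_subsingleton] at hc
    apply hx
    apply Du.sep
    intro f
    rw [Subsingleton.elim f 0]
    rfl
  rw [isSimpleModule_iff]
  refine { exists_pair_ne := ⟨⊥, ⊤, bot_ne_top⟩, eq_bot_or_eq_top := fun S => ?_ }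
  let A : Submodule RG X := mkSub
    { carrier := {x | ∀ f ∈ S, f x = 0}
      zero_mem' := fun f _ => map_zero f
      add_mem' := fun {a b} ha hb f hf => by rw [map_add, ha f hf, hb f hf, add_zero]
      neg_mem' := fun {a} ha f hf => by rw [map_neg, ha f hf, neg_zero] }
    (fun g x hx f hf => by
      have h1 := hx (act g⁻¹ f) (act_mem _ hf)
      rwa [act_Du, inv_inv] at h1)
  rcases eq_bot_or_eq_top A with hA | hA
  · right
    apply Du.eq_top
    intro x hx
    have : x ∈ A := hx
    rw [hA] at this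
    exact (Submodule.mem_bot _).1 this
  · left
    rw [eq_bot_iff]
    intro f hf
    rw [Submodule.mem_bot]
    ext x
    have : x ∈ A := by rw [hA]; exact Submodule.mem_top
    exact this f hf

variable {Y Z : Type*} [AddCommGroup Y] [Module RG Y] [AddCommGroup Z] [Module RG Z]

/-- the dual pairing `Y × Z* → X*`, `(y, z) ↦ (x ↦ z (p x y))` -/
def dp (p : X →+ Y →+ Z) : Y →+ Du Z →+ Du X :=
  AddMonoidHom.mk' (fun y => AddMonoidHom.mk' (fun z =>
      ((AddMonoidHom.mk' (fun x => z (p x y)) (fun a b => by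
        rw [map_add, AddMonoidHom.add_apply, map_add]) : X →+ ZMod 2) : Du X))
      (fun a b => rfl)) (fun a b => by
    ext z x
    change z (p x (a + b)) = z (p x a) + z (p x b)
    rw [map_add, map_add])

@[simp] theorem dp_apply (p : X →+ Y →+ Z) (y : Y) (z : Du Z) (x : X) :
    (dp p y z) x = z (p x y) := rfl

theorem dp_adm {p : X →+ Y →+ Z} (hp : Adm p) : Adm (dp p) where
  equiv g y z := by
    ext x
    rw [act_Du, dp_apply, dp_apply, act_Du]
    congr 1
    have h := hp.equiv g (act g⁻¹ x) y
    rw [act_act_inv] at h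
    rw [h, act_inv_act]
  fix g hg y z hy hz := by
    ext x
    rw [dp_apply, Du.zero_apply]
    have hodd : Odd (orderOf g) := by
      rcases hg with h | h <;> rw [h] <;> decide
    have h1 : ∀ i : ℕ, z (p (act (g ^ i) x) y) = z (p x y) := by
      intro i
      induction i with
      | zero => simp
      | succ k ih =>
        have h2 : (act g z) (act g (p (act (g ^ k) x) y)) = z (p (act (g ^ k) x) y) := by
          rw [act_Du, act_inv_act]
        rw [hz, ← hp.equiv, hy] at h2
        rw [pow_succ', act_mul, h2, ih]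
    have h2 : z (p (orb g (orderOf g) x) y) = z (p x y) := by
      rw [orb, map_sum, AddMonoidHom.finset_sum_apply, map_sum]
      simp only [h1, Finset.sum_const, Finset.card_range]
      obtain ⟨k, hk⟩ := hodd
      rw [hk]
      generalize z (p x y) = c
      rw [add_nsmul, one_nsmul, mul_nsmul', two_nsmul]
      generalize k • c = d
      revert c d
      decide
    rw [← h2, hp.fix g hg _ _ (act_orb (pow_orderOf_eq_one g) x) hy, map_zero]
  four g hg y z := by
    ext x
    rw [dp_apply, Du.zero_apply]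
    have hg4 : g ^ 4 = 1 := by
      have h := pow_orderOf_eq_one g
      rwa [hg] at h
    have e1 : g⁻¹ = g ^ 3 := inv_eq_of_mul_eq_one_left (by rw [← pow_succ, hg4])
    have e2 : (g ^ 2)⁻¹ = g ^ 2 := inv_eq_of_mul_eq_one_left (by rw [← pow_add, hg4])
    have e3 : (g ^ 3)⁻¹ = g := inv_eq_of_mul_eq_one_left (by rw [← pow_succ', hg4])
    have hN : ∀ k : Gam, (k = g ∨ k = g ^ 2 ∨ k = g ^ 3) → act k (nrm4 g y) = nrm4 g y := by
      have h1 : act g (nrm4 g y) = nrm4 g y := by
        simp only [nrm4, act_add, ← act_mul]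
        rw [← pow_succ', ← pow_succ', ← pow_two]
        norm_num [hg4]
        abel
      rintro k (rfl | rfl | rfl)
      · exact h1
      · rw [pow_two, act_mul, h1, h1]
      · rw [pow_succ, pow_two, act_mul, act_mul, h1, h1, h1]
    have hz : ∀ k : Gam, (k = g ∨ k = g ^ 2 ∨ k = g ^ 3) →
        (act k z) (p x (nrm4 g y)) = z (p (act k⁻¹ x) (nrm4 g y)) := by
      intro k hk
      rw [act_Du]
      congr 1
      have h := hp.equiv k (act k⁻¹ x) (nrm4 g y)
      rw [act_act_inv, hN k hk] at h
      rw [h, act_inv_act]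
    have e : (nrm4 g z) (p x (nrm4 g y)) = z (p (nrm4 g x) (nrm4 g y)) := by
      have h0 : (nrm4 g z) (p x (nrm4 g y)) = z (p x (nrm4 g y)) + (act g z) (p x (nrm4 g y)) +
        (act (g ^ 2) z) (p x (nrm4 g y)) + (act (g ^ 3) z) (p x (nrm4 g y)) := rfl
      rw [h0, hz g (Or.inl rfl), hz _ (Or.inr (Or.inl rfl)), hz _ (Or.inr (Or.inr rfl)), e1, e2, e3]
      have h5 : nrm4 g x = x + act (g ^ 3) x + act (g ^ 2) x + act g x := by
        rw [nrm4]; abel
      rw [h5]
      simp only [map_add, AddMonoidHom.add_apply]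
    rw [e, hp.four g hg, map_zero]

end dual

end Pool.Agent.A8
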