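import Pool.Agent.Helper89.A8.GDefs

/-!
# Statements of all the blocks of the proof (MP_93c1ff)

Everything lives in universe 0.  Each `S_...` is a `Prop`; the blocks prove them, possibly from
earlier ones.
-/

set_option autoImplicit false

namespace Pool.Agent.A8

open Matrix
open scoped commutatorElement

/-! ## Part M : modules over `F_2 GL_4(2)` -/

/-! ### M1 basics -/

def S_SIM : Prop := ∀ a : Ty, IsSimpleModule RG (Md a)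

def S_F15 : Prop := ∀ a : Ty, Free15 (Md a)

def S_END : Prop := ∀ (a b : Ty) (f : Md a →ₗ[RG] Md b), (∀ x, f x = 0) ∨ ∃ h : a = b, ∀ x, f x = h ▸ x

def S_PERF : Prop := ∀ (a b c : Ty) (m : Md a → Md b → Md c), Std3 a b c m →
  (∀ x, (∀ y, m x y = 0) → x = 0) ∧ (∀ y, (∀ x, m x y = 0) → y = 0)

/-! ### M2 admissible pairings between small modules -/

def S_GG : Prop := ∀ (a b : Ty) (S : Type) [AddCommGroup S] [Module RG S] (p : Md a →+ Md b →+ S),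
  Adm p → (∀ x y, p x y = 0) ∨
    ∃ (c : Ty) (m : Md a → Md b → Md c) (f : Md c →ₗ[RG] S), Std3 a b c m ∧ ∀ x y, p x y = f (m x y)

/-! ### M3 Hecke eigenvectors -/

def S_HECKE : Prop := ∀ (X : Type) [AddCommGroup X] [Module RG X] [Finite X] [Nontrivial X],
  ∃ (J : Fin 3 → Bool) (w : X), HV J w

def S_HV000 : Prop := ∀ (X : Type) [AddCommGroup X] [Module RG X], Free15 X →
  ∀ w : X, ¬ HV ![false, false, false] w

def S_HV101 : Prop := ∀ (X : Type) [AddCommGroup X] [Module RG X], Free15 X →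
  ∀ w : X, ¬ HV ![true, false, true] w

def S_HV111 : Prop := ∀ (X : Type) [AddCommGroup X] [Module RG X], Free15 X →
  ∀ w : X, ¬ HV ![true, true, true] w

def S_HV100 : Prop := ∀ (X : Type) [AddCommGroup X] [Module RG X] (w : X),
  HV ![true, false, false] w → ∃ f : MV →ₗ[RG] X, f vE0 = w

def S_HV010 : Prop := ∀ (X : Type) [AddCommGroup X] [Module RG X] (w : X),
  HV ![false, true, false] w → ∃ f : ML →ₗ[RG] X, f lE01 = w

/-- (the functional whose kernel is `<e₀,e₁,e₂>`) -/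
def S_HV001 : Prop := ∀ (X : Type) [AddCommGroup X] [Module RG X] (w : X),
  HV ![false, false, true] w → ∃ f : MD →ₗ[RG] X, f (![0, 0, 0, 1] : Fin 4 → ZMod 2) = w

/-- for a simple module of any type there is an element of order 4 with nonzero norm -/
def S_NH : Prop := ∀ (X : Type) [AddCommGroup X] [Module RG X] [Finite X], IsSimpleModule RG X →
  Free15 X → ∃ h : Gam, orderOf h = 4 ∧ ∃ x : X, nrm4 h x ≠ 0

/-- the types `{1,2}` and `{2,3}` do not occur in admissible pairings of simple modules -/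
def S_TRI : Prop := ∀ (X Y S : Type) [AddCommGroup X] [Module RG X] [Finite X]
  [AddCommGroup Y] [Module RG Y] [Finite Y] [AddCommGroup S] [Module RG S] [Finite S],
  IsSimpleModule RG X → IsSimpleModule RG Y → IsSimpleModule RG S →
  Free15 X → Free15 Y → Free15 S → ∀ p : X →+ Y →+ S, Adm p →
  (∃ w : X, HV ![true, true, false] w ∨ HV ![false, true, true] w) → ∀ x y, p x y = 0

/-- the left factor of a nonzero admissible pairing of simple modules is small -/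
def S_BAD : Prop := ∀ (X Y S : Type) [AddCommGroup X] [Module RG X] [Finite X]
  [AddCommGroup Y] [Module RG Y] [Finite Y] [AddCommGroup S] [Module RG S] [Finite S],
  IsSimpleModule RG X → IsSimpleModule RG Y → IsSimpleModule RG S →
  Free15 X → Free15 Y → Free15 S → ∀ p : X →+ Y →+ S, Adm p → (∃ x y, p x y ≠ 0) →
  ∃ a, Nonempty (X ≃ₗ[RG] Md a)

/-! ### M4 consequences for pairings -/

/-- all three factors of a nonzero admissible pairing of simple modules are small, and the pairing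
is standard -/
def S_UNIV : Prop := ∀ (X Y S : Type) [AddCommGroup X] [Module RG X] [Finite X]
  [AddCommGroup Y] [Module RG Y] [Finite Y] [AddCommGroup S] [Module RG S] [Finite S],
  IsSimpleModule RG X → IsSimpleModule RG Y → IsSimpleModule RG S →
  Free15 X → Free15 Y → Free15 S → ∀ p : X →+ Y →+ S, Adm p → (∃ x y, p x y ≠ 0) →
  ∃ (a b c : Ty) (m : Md a → Md b → Md c) (α : X ≃ₗ[RG] Md a) (β : Y ≃ₗ[RG] Md b)
    (γ : S ≃ₗ[RG] Md c), Std3 a b c m ∧ ∀ x y, γ (p x y) = m (α x) (β y)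

/-- a left perfect admissible pairing `X × Md b → Md c` is standard -/
def S_UC : Prop := ∀ (b c : Ty) (X : Type) [AddCommGroup X] [Module RG X] [Finite X] [Nontrivial X]
  (p : X →+ Md b →+ Md c), Adm p → PerfL p →
  ∃ (a : Ty) (m : Md a → Md b → Md c) (α : X ≃ₗ[RG] Md a), Std3 a b c m ∧ ∀ x y, p x y = m (α x) y

/-- the same on the right -/
def S_UC' : Prop := ∀ (a c : Ty) (Y : Type) [AddCommGroup Y] [Module RG Y] [Finite Y] [Nontrivial Y]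
  (p : Md a →+ Y →+ Md c), Adm p → PerfR p →
  ∃ (b : Ty) (m : Md a → Md b → Md c) (β : Y ≃ₗ[RG] Md b), Std3 a b c m ∧ ∀ x y, p x y = m x (β y)

/-! ### M5 extensions -/

/-- `Ext(V,V) = 0 = Ext(V*,V*)` -/
def S_M3 : Prop := ∀ (a : Ty), a ≠ .l → ∀ (X : Type) [AddCommGroup X] [Module RG X] [Finite X]
  (i : Md a →ₗ[RG] X) (q : X →ₗ[RG] Md a), Function.Injective i → Function.Surjective q →
  (∀ x, q x = 0 ↔ ∃ m, i m = x) → ∃ s : Md a →ₗ[RG] X, ∀ m, q (s m) = m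

/-- a module all of whose simple sections are `V` (or all `V*`) is a sum of copies of `V` (`V*`) -/
def S_M3C : Prop := ∀ (a : Ty), a ≠ .l → ∀ (X : Type) [AddCommGroup X] [Module RG X] [Finite X],
  AllC a X → Hg (Md a) X

/-- extension closure -/
def S_M3E : Prop := ∀ (a : Ty), a ≠ .l → ∀ (X : Type) [AddCommGroup X] [Module RG X] [Finite X]
  (N : Submodule RG X), Hg (Md a) N → Hg (Md a) (X ⧸ N) → Hg (Md a) X

/-- equivariant sections for extensions of `V` (or `V*`) by a sum of `L`s -/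
def S_M4 : Prop := ∀ (a : Ty) (m2 : Md a → Md a → ML), Std3 a a .l m2 →
  ∀ (X : Type) [AddCommGroup X] [Module RG X] [Finite X] (q : X →ₗ[RG] Md a),
  Function.Surjective q → Hg ML (LinearMap.ker q) →
  ∃ (sec : Md a → X) (κ : ML →ₗ[RG] X), (∀ m, q (sec m) = m) ∧
    (∀ g m, sec (act g m) = act g (sec m)) ∧
    (∀ l, q (κ l) = 0) ∧ ∀ m m', sec (m + m') = sec m + sec m' + κ (m2 m m')

def S_M6 : Prop := ∀ (a : Ty), a ≠ .l → ∀ (X : Type) [AddCommGroup X] [Module RG X] [Finite X]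
  (q : X →ₗ[RG] Md a) (i : Md a →ₗ[RG] X), Function.Surjective q → Function.Injective i →
  (∀ m, q (i m) = 0) →
  -- `ker q / im i` is a sum of `L`s
  (∀ x, q x = 0 → (∀ f : LinearMap.ker q →ₗ[RG] ML, (∀ m (h : q (i m) = 0), f ⟨i m, h⟩ = 0) →
    ∀ h : q x = 0, f ⟨x, h⟩ = 0) → ∃ m, i m = x) →
  -- every nonzero submodule of `ker q` contains `im i`
  (∀ P : Submodule RG X, P ≤ LinearMap.ker q → P ≠ ⊥ → LinearMap.range i ≤ P) →
  ∃ P : Submodule RG X, LinearMap.range i ≤ P ∧ P ⊔ LinearMap.ker q = ⊤ ∧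
    P ⊓ LinearMap.ker q = LinearMap.range i

/-- a module with unique maximal submodule, head `V`, and a left perfect pairing with `V` or `L`,
is `V` (and dually) -/
def S_U23 : Prop := ∀ (a b : Ty), a ≠ .l → (b = a ∨ b = .l) →
  ∀ (X Z : Type) [AddCommGroup X] [Module RG X] [Finite X] [AddCommGroup Z] [Module RG Z] [Finite Z],
  Free15 X → Free15 Z → IsLoc X → Heads a X → ∀ p : X →+ Md b →+ Z, Adm p → PerfL p →
  Nonempty (X ≃ₗ[RG] Md a)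

def S_L2M : Prop := ∀ (X Y : Type) [AddCommGroup X] [Module RG X] [Finite X]
  [AddCommGroup Y] [Module RG Y] [Finite Y]
  (qX : X →ₗ[RG] MV) (iX : MD →ₗ[RG] X) (qY : Y →ₗ[RG] MD) (iY : MV →ₗ[RG] Y)
  (p : X →+ Y →+ ML),
  Function.Surjective qX → (∀ x, qX x = 0 ↔ ∃ η, iX η = x) →
  Function.Surjective qY → (∀ y, qY y = 0 ↔ ∃ v, iY v = y) →
  (∀ g x y, p (act g x) (act g y) = act g (p x y)) →
  (∀ η y, p (iX η) y = mdd η (qY y)) → (∀ x v, p x (iY v) = mvv (qX x) v) →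
  ∃ s : MV →ₗ[RG] X, ∀ v, qX (s v) = v

/-! ### M6 the structure theorem for pairings -/

/-- heads of the value module -/
def S_MTH : Prop := ∀ (X Y Z : Type) [AddCommGroup X] [Module RG X] [Finite X]
  [AddCommGroup Y] [Module RG Y] [Finite Y] [AddCommGroup Z] [Module RG Z] [Finite Z],
  Free15 X → Free15 Y → Free15 Z → Heads .v X → Heads .l Y →
  ∀ p : X →+ Y →+ Z, Adm p → (∀ N : Submodule RG Z, (∀ x y, p x y ∈ N) → N = ⊤) →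
  Heads .d Z

def S_MT : Prop := ∀ (X Y Z : Type) [AddCommGroup X] [Module RG X] [Finite X]
  [AddCommGroup Y] [Module RG Y] [Finite Y] [AddCommGroup Z] [Module RG Z] [Finite Z],
  Free15 X → Free15 Y → Free15 Z → Heads .v X → Heads .l Y →
  ∀ p : X →+ Y →+ Z, Adm p → PerfL p → PerfR p →
  (∀ N : Submodule RG Z, (∀ x y, p x y ∈ N) → N = ⊤) →
  Hg MV X ∧ Hg MV (rj ML Y) ∧ Hg ML (rj MD Z)

/-! ### M7 the 3A lemma -/

def S_3AP : Prop := ∀ (X Y E : Type) [AddCommGroup X] [Module RG X] [Finite X]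
  [AddCommGroup Y] [Module RG Y] [Finite Y] [AddCommGroup E] [Module RG E] [Finite E],
  Free15 X → Free15 Y → Free15 E → VDL X → VDL Y → VDL E →
  ∀ p : X →+ Y →+ E, Adm p → ∀ x y, act ga x = x → act ga y = y → p x y = 0

def S_3AQ : Prop := ∀ (Y E : Type) [AddCommGroup Y] [Module RG Y] [Finite Y]
  [AddCommGroup E] [Module RG E] [Finite E], Free15 Y → Free15 E → VDL Y → VDL E →
  ∀ q : Y → E,
  (∀ x y, act ga x = x → act ga y = y → q (x + y) = q x + q y) →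
  (∀ (g : Gam) (x : Y), (g * ga * g⁻¹ = ga ∨ g * ga * g⁻¹ = ga⁻¹) → act ga x = x →
    q (act g x) = act g (q x)) →
  (∀ (h : Gam) (x : Y), (h * ga * h⁻¹ = ga ∨ h * ga * h⁻¹ = ga⁻¹) → orderOf h = 4 →
    act ga x = x → q (nrm4 h x) = 0) →
  ∀ x, act ga x = x → q x = 0

/-! ### M8 cocycles of the transvection group -/

/-- `F`-equivariant cocycles `T(e₀) → L` -/
def S_COCL : Prop := ∀ l : Gam → ML, (∀ t ∈ TT, ∀ t' ∈ TT, l (t * t') = l t + act t (l t')) →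
  (∀ t ∈ TT, l (gh * t * gh⁻¹) = act gh (l t)) → (∀ t ∈ TT, l (gs * t * gs⁻¹) = act gs (l t)) →
  l gt = 0 ∨ l gt = lE01 + lE23

/-- `F`-equivariant cocycles `T(e₀) → V` -/
def S_COCV : Prop := ∀ l : Gam → MV, (∀ t ∈ TT, ∀ t' ∈ TT, l (t * t') = l t + act t (l t')) →
  (∀ t ∈ TT, l (gh * t * gh⁻¹) = act gh (l t)) → (∀ t ∈ TT, l (gs * t * gs⁻¹) = act gs (l t)) →
  ∀ t ∈ TT, l t = 0

/-! ### M9 facts on `GL_4(2)` -/

def S_O3 : Prop := ∀ g : Gam, g ^ 3 = 1 → g ≠ 1 → ∃ c : Gam, c * g * c⁻¹ = gs ∨ c * g * c⁻¹ = ga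

def S_CGS : Prop := ∀ g : Gam, g * gs = gs * g → (∃ k : ℕ, g ^ 2 ^ k = 1) →
  g = 1 ∨ ∃ c : Gam, c * gs = gs * c ∧ c * g * c⁻¹ = gt

def S_CGA : Prop := ∀ g : Gam, g * ga = ga * g → (∃ k : ℕ, g ^ 2 ^ k = 1) → g * g = 1

def S_A8 : Prop := Nonempty (alternatingGroup (Fin 8) ≃* Gam)

/-! ## Part G : groups -/

/-! ### G1 coprime action -/

def S_COP : Prop := ∀ (G : Type) [Group G] [Finite G] (H N : Subgroup G), Group.IsSolvable H →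
  Odd (Nat.card H) → IsPGroup 2 N → (∀ h ∈ H, ∀ n ∈ N, h * n * h⁻¹ ∈ N) →
  ∀ x : G, (∀ h ∈ H, x⁻¹ * (h * x * h⁻¹) ∈ N) → ∃ n ∈ N, ∀ h ∈ H, h * (x * n) * h⁻¹ = x * n

/-- lifts of elements of odd order -/
def S_LIFT : Prop := ∀ (G : Type) [Group G] [Finite G] (π : G →* Gam), Cfg π →
  ∀ (g : Gam) (n : ℕ), Odd n → g ^ n = 1 → ∃ x : G, π x = g ∧ x ^ n = 1

/-- Frobenius lifts -/
def S_FROB : Prop := ∀ (G : Type) [Group G] [Finite G] (π : G →* Gam), Cfg π →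
  ∀ s : G, s ^ 3 = 1 → π s = gs → ∃ ρ, IsRho π s ρ

/-- lifts to centralisers -/
def S_LIFTC : Prop := ∀ (G : Type) [Group G] [Finite G] (π : G →* Gam), Cfg π →
  ∀ (s : G) (c : Gam), s ^ 3 = 1 → c * π s = π s * c → ∃ x : G, π x = c ∧ x * s = s * x

/-- frames -/
def S_FRAME : Prop := ∀ (G : Type) [Group G] [Finite G] (π : G →* Gam), Cfg π →
  ∀ s : G, s ^ 3 = 1 → π s = gs → ∃ r τ, Frame π s r τ

/-! ### G2 quotient modules and commutator pairings -/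

def S_QM : Prop := ∀ (G : Type) [Group G] [Finite G] (π : G →* Gam), Cfg π →
  ∀ X Y : Subgroup G, X.Normal → Y.Normal → Y ≤ X → X ≤ π.ker → (∀ x ∈ X, x * x ∈ Y) →
  ⁅X, π.ker⁆ ≤ Y →
  ∃ (M : Type) (_ : AddCommGroup M) (_ : Module RG M) (_ : Finite M) (φ : G → M),
    Sec π X Y φ ∧ Free15 M

def S_SIMQ : Prop := ∀ (G : Type) [Group G] [Finite G] (π : G →* Gam), Cfg π →
  ∀ X Y : Subgroup G, X.Normal → Y.Normal → Y < X → X ≤ π.ker →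
  (∀ W : Subgroup G, W.Normal → Y ≤ W → W ≤ X → W = Y ∨ W = X) →
  ∃ (M : Type) (_ : AddCommGroup M) (_ : Module RG M) (_ : Finite M) (φ : G → M),
    Sec π X Y φ ∧ Free15 M ∧ IsSimpleModule RG M

/-- the commutator pairing of two normal subgroups, followed by a homomorphism to a module, when
`K` acts trivially on it -/
def S_PAIR : Prop := ∀ (G : Type) [Group G] [Finite G] (π : G →* Gam), Cfg π →
  ∀ X Y : Subgroup G, X.Normal → Y.Normal → X ≤ π.ker → Y ≤ π.ker →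
  ∀ (Z : Type) [AddCommGroup Z] [Module RG Z] (χ : G → Z), HomOn π ⁅X, Y⁆ χ →
  (∀ x ∈ X, ∀ y ∈ Y, ∀ k ∈ π.ker, χ ⁅k * x * k⁻¹, y⁆ = χ ⁅x, y⁆) →
  ∃ (Xb Yb : Type) (_ : AddCommGroup Xb) (_ : Module RG Xb) (_ : Finite Xb)
    (_ : AddCommGroup Yb) (_ : Module RG Yb) (_ : Finite Yb)
    (φ : G → Xb) (ψ : G → Yb) (p : Xb →+ Yb →+ Z),
    HomOn π X φ ∧ (∀ m, ∃ x ∈ X, φ x = m) ∧ HomOn π Y ψ ∧ (∀ m, ∃ y ∈ Y, ψ y = m) ∧
    (∀ x ∈ X, ∀ y ∈ Y, p (φ x) (ψ y) = χ ⁅x, y⁆) ∧ Adm p ∧ PerfL p ∧ PerfR p ∧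
    Free15 Xb ∧ Free15 Yb

/-! ### G3 local subgroups -/

/-- a local subgroup (unique maximal `G`-subgroup `D1`) is of type v, d, l or central -/
def S_TYPES : Prop := ∀ (G : Type) [Group G] [Finite G] (π : G →* Gam), Cfg π →
  ∀ D D1 : Subgroup G, D.Normal → D ≤ π.ker → D1.Normal → D1 < D →
  (∀ W : Subgroup G, W.Normal → W ≤ D → W ≠ D → W ≤ D1) →
  (∃ (a : Ty) (φ : G → Md a), Loc π D a φ) ∨ D ≤ ZK π

/-- for `X ⊄ T` there is a local subgroup of `X` which is minimal subject to `⊄ T` -/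
def S_COV : Prop := ∀ (G : Type) [Group G] [Finite G] (π : G →* Gam), Cfg π →
  ∀ X T : Subgroup G, X.Normal → T.Normal → X ≤ π.ker → ¬ X ≤ T →
  ∃ D : Subgroup G, D.Normal ∧ D ≤ X ∧ ¬ D ≤ T ∧
    (∀ W : Subgroup G, W.Normal → W ≤ D → W ≠ D → W ≤ T) ∧
    ((∃ (a : Ty) (φ : G → Md a), Loc π D a φ ∧ ∀ x ∈ D, φ x = 0 ↔ x ∈ T) ∨ D ≤ ZK π)

def S_DEC : Prop := ∀ (G : Type) [Group G] [Finite G] (π : G →* Gam), Cfg π →
  π.ker = Kt π .v ⊔ Kt π .d ⊔ Kt π .l ⊔ ZK π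

/-- a homomorphism from a local subgroup to a small module is zero or its own -/
def S_UQ : Prop := ∀ (G : Type) [Group G] [Finite G] (π : G →* Gam), Cfg π →
  ∀ (R : Subgroup G) (a : Ty) (φ : G → Md a), Loc π R a φ →
  ∀ (b : Ty) (θ : G → Md b), HomOn π R θ →
  (∀ x ∈ R, θ x = 0) ∨ ∃ h : a = b, ∀ x ∈ R, θ x = h ▸ φ x

/-- a homomorphism, nonzero on the product of all locals of type `a`, has values of type `a` -/
def S_UQK : Prop := ∀ (G : Type) [Group G] [Finite G] (π : G →* Gam), Cfg π →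
  ∀ (a b : Ty) (θ : G → Md b), HomOn π (Kt π a) θ → (∃ x ∈ Kt π a, θ x ≠ 0) → a = b

/-- quotients of commutator subgroups are small -/
def S_TB : Prop := ∀ (G : Type) [Group G] [Finite G] (π : G →* Gam), Cfg π →
  ∀ X Y T : Subgroup G, X.Normal → Y.Normal → T.Normal → X ≤ π.ker → Y ≤ π.ker →
  ¬ ⁅X, Y⁆ ≤ T →
  ∃ (c : Ty) (χ : G → Md c), HomOn π ⁅X, Y⁆ χ ∧ (∀ z ∈ ⁅X, Y⁆, z ∈ T → χ z = 0) ∧
    ∃ x ∈ X, ∃ y ∈ Y, χ ⁅x, y⁆ ≠ 0

def S_STD2 : Prop := ∀ (G : Type) [Group G] [Finite G] (π : G →* Gam), Cfg π →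
  ∀ (W B : Subgroup G) (b : Ty) (φ : G → Md b), W.Normal → W ≤ π.ker → Loc π B b φ →
  ∀ (c : Ty) (χ : G → Md c), HomOn π ⁅W, B⁆ χ →
  (∀ w ∈ W, ∀ y ∈ B, φ y = 0 → χ ⁅w, y⁆ = 0) →
  (∀ w ∈ W, ∀ y ∈ B, χ ⁅w, y⁆ = 0) ∨
  ∃ (a : Ty) (m : Md a → Md b → Md c) (θ : G → Md a), Std3 a b c m ∧ HomOn π W θ ∧
    (∃ w ∈ W, θ w ≠ 0) ∧ ∀ w ∈ W, ∀ y ∈ B, χ ⁅w, y⁆ = m (θ w) (φ y)

/-- locals are generated by involutions -/
def S_INV : Prop := ∀ (G : Type) [Group G] [Finite G] (π : G →* Gam), Cfg π →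
  ∀ (R : Subgroup G) (a : Ty) (φ : G → Md a), Loc π R a φ →
  R = Subgroup.closure {x | x ∈ R ∧ x * x = 1}

def S_ZEL : Prop := ∀ (G : Type) [Group G] [Finite G] (π : G →* Gam), Cfg π →
  ∀ z ∈ ZK π, z * z = 1

def S_ABEL : Prop := ∀ (G : Type) [Group G] [Finite G] (π : G →* Gam), Cfg π →
  ∀ B : Subgroup G, B.Normal → B ≤ π.ker → (∀ x ∈ B, ∀ y ∈ B, x * y = y * x) →
  ∀ x ∈ B, x * x = 1

/-! ### G4 the structure of `K` -/

def S_CV : Prop := ∀ (G : Type) [Group G] [Finite G] (π : G →* Gam), Cfg π →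
  ⁅Kt π .v, Kt π .d⁆ = ⊥

/-- all small quotients of `A = [Kv, Kl]` are of type d -/
def S_HA : Prop := ∀ (G : Type) [Group G] [Finite G] (π : G →* Gam), Cfg π →
  ∀ (c : Ty) (χ : G → Md c), HomOn π ⁅Kt π .v, Kt π .l⁆ χ →
  (∃ z ∈ ⁅Kt π .v, Kt π .l⁆, χ z ≠ 0) → c = .d

def S_AD : Prop := ∀ (G : Type) [Group G] [Finite G] (π : G →* Gam), Cfg π →
  ⁅Kt π .v, Kt π .l⁆ ≤ Kt π .d

/-- duality -/
def S_DUALG : Prop := ∀ (G : Type) [Group G] [Finite G] (π : G →* Gam), Cfg π →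
  Cfg (dlG.comp π) ∧ Kt (dlG.comp π) .v = Kt π .d ∧ Kt (dlG.comp π) .d = Kt π .v ∧
  Kt (dlG.comp π) .l = Kt π .l

def S_LL : Prop := ∀ (G : Type) [Group G] [Finite G] (π : G →* Gam), Cfg π →
  ⁅Kt π .l, Kt π .l⁆ ≤ ⁅Kt π .v, Kt π .l⁆ ⊔ ⁅Kt π .d, Kt π .l⁆

/-- `[[Kv,Kl],Kl] = 1` -/
def S_AL : Prop := ∀ (G : Type) [Group G] [Finite G] (π : G →* Gam), Cfg π →
  ⁅⁅Kt π .v, Kt π .l⁆, Kt π .l⁆ = ⊥

/-- `J = [Kv,Kv]` lies in `Kl Kd` -/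
def S_J : Prop := ∀ (G : Type) [Group G] [Finite G] (π : G →* Gam), Cfg π →
  ⁅Kt π .v, Kt π .v⁆ ≤ Kt π .l ⊔ Kt π .d

/-- summary of the structure of `K` -/
structure Str {G : Type} [Group G] (π : G →* Gam) : Prop where
  dec : π.ker = Kt π .v ⊔ Kt π .d ⊔ Kt π .l ⊔ ZK π
  cv : ⁅Kt π .v, Kt π .d⁆ = ⊥
  aZ : ⁅Kt π .v, Kt π .l⁆ ≤ ZK π
  aZ' : ⁅Kt π .d, Kt π .l⁆ ≤ ZK π
  aD : ⁅Kt π .v, Kt π .l⁆ ≤ Kt π .d
  aD' : ⁅Kt π .d, Kt π .l⁆ ≤ Kt π .v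
  ll : ⁅Kt π .l, Kt π .l⁆ ≤ ⁅Kt π .v, Kt π .l⁆ ⊔ ⁅Kt π .d, Kt π .l⁆
  j : ⁅Kt π .v, Kt π .v⁆ ≤ Kt π .l ⊔ Kt π .d
  jl : ⁅⁅Kt π .v, Kt π .v⁆, Kt π .l⁆ = ⊥
  jd : ⁅⁅Kt π .v, Kt π .v⁆, Kt π .d⁆ = ⊥
  jv : ⁅⁅Kt π .v, Kt π .v⁆, Kt π .v⁆ ≤ ⁅Kt π .v, Kt π .l⁆
  j2 : ∀ x ∈ ⁅Kt π .v, Kt π .v⁆, x * x = 1
  z2 : ∀ x ∈ ZK π, x * x = 1

def S_STR : Prop := ∀ (G : Type) [Group G] [Finite G] (π : G →* Gam), Cfg π → Str π

/-- group version of the structure theorem for pairings -/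
def S_MTG : Prop := ∀ (G : Type) [Group G] [Finite G] (π : G →* Gam), Cfg π →
  ⁅rjT π .v (Kt π .v) ⊥, Kt π .l⁆ = ⊥ ∧
  GHg π .l (rjT π .d ⁅Kt π .v, Kt π .l⁆ ⊥) ⊥ ∧
  GHg π .v (rjT π .l (Kt π .l ⊔ CK π (Kt π .v)) (CK π (Kt π .v))) (CK π (Kt π .v))

/-- `K0 = ` common kernel of the homomorphisms `Kv → V` -/
structure Str0 {G : Type} [Group G] (π : G →* Gam) : Prop where
  le : rjT π .v (Kt π .v) ⊥ ≤ Kt π .l ⊔ CK π (Kt π .v)
  hg : GHg π .v π.ker (Kt π .l ⊔ CK π (Kt π .v))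
  ab : ∀ x ∈ rjT π .v (Kt π .v) ⊥, ∀ y ∈ rjT π .v (Kt π .v) ⊥, x * y = y * x
  el : ∀ x ∈ rjT π .v (Kt π .v) ⊥, x * x = 1
  cl : ∀ x ∈ rjT π .v (Kt π .v) ⊥, ∀ y ∈ Kt π .l ⊔ CK π (Kt π .v), x * y = y * x
  kv : ⁅rjT π .v (Kt π .v) ⊥, Kt π .v⁆ ≤ ⁅Kt π .v, Kt π .l⁆

def S_L7 : Prop := ∀ (G : Type) [Group G] [Finite G] (π : G →* Gam), Cfg π → Str0 π

/-! ### G5 the case 3A -/

def S_C3A : Prop := ∀ (G : Type) [Group G] [Finite G] (π : G →* Gam), Cfg π →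
  ∀ a : G, a ^ 3 = 1 → π a = ga → ∀ x ∈ π.ker, x * a = a * x → x * x = 1

/-! ### G6 the case 3B -/

def S_UL : Prop := ∀ (G : Type) [Group G] [Finite G] (π : G →* Gam), Cfg π →
  ∀ Y0 : Subgroup G, Y0.Normal → Y0 ≤ π.ker → GHg π .v π.ker Y0 →
  ∀ s ρ : G, s ^ 3 = 1 → π s = gs → IsRho π s ρ → ∃ U : Subgroup G, IsU π s ρ Y0 U

def S_VI : Prop := ∀ (G : Type) [Group G] [Finite G] (π : G →* Gam), Cfg π →
  ∀ Y0 Y2 : Subgroup G, SetE π Y0 Y2 → ∀ s r τ ρ : G, Frame π s r τ → IsRho π s ρ →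
  ∀ U : Subgroup G, IsU π s ρ Y0 U → ∀ x ∈ π.ker, x * ρ = ρ * x → x * s = s * x →
  (∀ u ∈ U, u * x = x * u) ∧ τ * x = x * τ

def S_BETA : Prop := ∀ (G : Type) [Group G] [Finite G] (π : G →* Gam), Cfg π →
  ∀ Y0 Y2 : Subgroup G, SetE π Y0 Y2 → ∀ s r τ : G, Frame π s r τ →
  τ * τ ∈ Y0 ∧ ∀ ψ : G → ML, HomOn π Y0 ψ → ψ (τ * τ) = 0 ∨ ψ (τ * τ) = lE01

/-- the setting (E) holds in the quotient by `C_K(Kv)` -/
def S_QE : Prop := ∀ (G : Type) [Group G] [Finite G] (π : G →* Gam), Cfg π →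
  ∀ (C : Subgroup G) [C.Normal] (h : C ≤ π.ker), C = CK π (Kt π .v) →
  Cfg (QuotientGroup.lift C π h) ∧
  ∃ Y2 : Subgroup (G ⧸ C),
    SetE (QuotientGroup.lift C π h) ((Kt π .l ⊔ C).map (QuotientGroup.mk' C)) Y2

/-- (VI) in the group `G`, modulo `C_K(Kv)` -/
def S_VIG : Prop := ∀ (G : Type) [Group G] [Finite G] (π : G →* Gam), Cfg π →
  ∀ s r τ ρ : G, Frame π s r τ → IsRho π s ρ →
  ∀ x ∈ Kt π .v, x * ρ = ρ * x → x * s = s * x → ⁅τ, x⁆ ∈ CK π (Kt π .v)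

/-- (BETA) in the group `G`, modulo `C_K(Kv)` -/
def S_BETAG : Prop := ∀ (G : Type) [Group G] [Finite G] (π : G →* Gam), Cfg π →
  ∀ s r τ : G, Frame π s r τ → τ * τ ∈ Kt π .l ⊔ CK π (Kt π .v) ∧
  ∀ ψ : G → ML, HomOn π (Kt π .l ⊔ CK π (Kt π .v)) ψ → (∀ c ∈ CK π (Kt π .v), ψ c = 0) →
  ψ (τ * τ) = 0 ∨ ψ (τ * τ) = lE01

/-- (A) `τ²` commutes with `Kv ∩ C(s)` -/
def S_THA : Prop := ∀ (G : Type) [Group G] [Finite G] (π : G →* Gam), Cfg π →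
  ∀ s r τ : G, Frame π s r τ → ∀ x ∈ Kt π .v, x * s = s * x → (τ * τ) * x = x * (τ * τ)

/-- (G2) -/
def S_G2 : Prop := ∀ (G : Type) [Group G] [Finite G] (π : G →* Gam), Cfg π →
  ∀ s u w x : G, s ^ 3 = 1 → π s = gs → π u = gt → u * s = s * u →
  w ∈ rjT π .v (Kt π .v) ⊥ → w * s = s * w →
  x ∈ Kt π .v → (∀ φ : G → MV, HomOn π (Kt π .v) φ → φ x = 0 ∨ φ x = vE0) →
  ((u * w * u⁻¹) * w) * x = x * ((u * w * u⁻¹) * w)

/-- (C0) -/
def S_C0 : Prop := ∀ (G : Type) [Group G] [Finite G] (π : G →* Gam), Cfg π →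
  ∀ s r τ ρ : G, Frame π s r τ → IsRho π s ρ →
  ∀ ε ∈ Kt π .v, ε * s = s * ε →
    ε * (r * τ * ρ * τ⁻¹ * r⁻¹) = (r * τ * ρ * τ⁻¹ * r⁻¹) * ε →
    (τ * ε * τ⁻¹) * ε = ε * (τ * ε * τ⁻¹)

/-- (C) -/
def S_C : Prop := ∀ (G : Type) [Group G] [Finite G] (π : G →* Gam), Cfg π →
  ∀ s r τ : G, Frame π s r τ → ∀ p ∈ Kt π .v, p * s = s * p → (τ * p) ^ 4 = 1

/-- decomposition of `C_K(s)` -/
def S_PDEC : Prop := ∀ (G : Type) [Group G] [Finite G] (π : G →* Gam), Cfg π →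
  ∀ s r τ : G, Frame π s r τ → ∀ p ∈ π.ker, p * s = s * p →
  ∃ d ∈ π.ker, ∃ p4 ∈ Kt π .v, ∃ pd ∈ Kt π .d, ∃ z ∈ ZK π,
    d * s = s * d ∧ d * r = r * d ∧ p4 * s = s * p4 ∧ pd * s = s * pd ∧ z * s = s * z ∧
    p = d * p4 * pd * z

/-- the case 3B -/
def S_C3B : Prop := ∀ (G : Type) [Group G] [Finite G] (π : G →* Gam), Cfg π →
  ∀ s : G, s ^ 3 = 1 → π s = gs → ∀ u : G, u * s = s * u → (∃ k : ℕ, u ^ 2 ^ k = 1) → u ^ 4 = 1

/-- the theorem in the form used for `GL_4(2)` -/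
def S_MAIN : Prop := ∀ (G : Type) [Group G] [Finite G] (π : G →* Gam), Cfg π →
  ∀ g : G, orderOf g ≠ 24

end Pool.Agent.A8
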