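import Pool.Agent.Helper89.A8.GTools
import Pool.Agent.Helper89.A8.Stmts

/-!
# Consequences of `Cfg`, and coprime action in convenient form
-/

set_option autoImplicit false
set_option linter.unusedSectionVars false

namespace Pool.Agent.A8

open Matrix
open scoped commutatorElement

section
variable {G : Type} [Group G] [Finite G]

/-- powers of an element normalising `N` -/
theorem conj_pow_mem {N : Subgroup G} {g : G} (hN : ∀ n ∈ N, g * n * g⁻¹ ∈ N) (k : ℕ) :
    ∀ n ∈ N, g ^ k * n * (g ^ k)⁻¹ ∈ N := by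
  induction k with
  | zero => intro n hn; simpa using hn
  | succ k ih =>
    intro n hn
    have h := hN _ (ih n hn)
    rw [pow_succ']
    convert h using 1
    group

theorem coset_pow_mem {N : Subgroup G} {g x : G} (hN : ∀ n ∈ N, g * n * g⁻¹ ∈ N)
    (hx : x⁻¹ * (g * x * g⁻¹) ∈ N) (k : ℕ) : x⁻¹ * (g ^ k * x * (g ^ k)⁻¹) ∈ N := by
  induction k with
  | zero => simp [N.one_mem]
  | succ k ih =>
    have h := N.mul_mem hx (hN _ ih)
    rw [pow_succ']
    convert h using 1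
    group

/-- coprime action of a cyclic group of odd order on a coset -/
theorem cop_cyc (hC : S_COP) {N : Subgroup G} (h2 : IsPGroup 2 N) {g : G} {m : ℕ} (hm : Odd m)
    (hg : g ^ m = 1) (hN : ∀ n ∈ N, g * n * g⁻¹ ∈ N) {x : G} (hx : x⁻¹ * (g * x * g⁻¹) ∈ N) :
    ∃ n ∈ N, (x * n) * g = g * (x * n) := by
  have hmem : ∀ h ∈ Subgroup.zpowers g, ∃ k : ℕ, g ^ k = h := by
    intro h hh
    rw [← mem_powers_iff_mem_zpowers] at hh
    exact Submonoid.mem_powers_iff h g |>.1 hh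
  have hcard : Odd (Nat.card (Subgroup.zpowers g)) := by
    rw [Nat.card_zpowers]
    exact Odd.of_dvd_nat hm (orderOf_dvd_of_pow_eq_one hg)
  obtain ⟨n, hn, hn'⟩ := hC G (Subgroup.zpowers g) N inferInstance hcard h2
    (by
      intro h hh n hn
      obtain ⟨k, rfl⟩ := hmem h hh
      exact conj_pow_mem hN k n hn) x
    (by
      intro h hh
      obtain ⟨k, rfl⟩ := hmem h hh
      exact coset_pow_mem hN hx k)
  refine ⟨n, hn, ?_⟩
  have h := hn' g (Subgroup.mem_zpowers g)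
  rw [mul_inv_eq_iff_eq_mul] at h
  exact h.symm

/-- coprime action of the group `<ρ, s>` of order 21 on a coset -/
theorem cop_F (hC : S_COP) {N : Subgroup G} (h2 : IsPGroup 2 N) {ρ s : G} (hρ7 : ρ ^ 7 = 1)
    (hs3 : s ^ 3 = 1) (hsρ : s * ρ * s⁻¹ = ρ ^ 2)
    (hNρ : ∀ n ∈ N, ρ * n * ρ⁻¹ ∈ N) (hNs : ∀ n ∈ N, s * n * s⁻¹ ∈ N) {x : G}
    (hxρ : x⁻¹ * (ρ * x * ρ⁻¹) ∈ N) (hxs : x⁻¹ * (s * x * s⁻¹) ∈ N) :
    ∃ n ∈ N, (x * n) * ρ = ρ * (x * n) ∧ (x * n) * s = s * (x * n) := by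
  obtain ⟨n, hn, hn'⟩ := cop_cyc hC h2 (m := 7) (by decide) hρ7 hNρ hxρ
  -- the subgroup of fixed points of `ρ`
  let N1 : Subgroup G := N ⊓ Subgroup.centralizer {ρ}
  have hN1 : ∀ y, y ∈ N1 ↔ y ∈ N ∧ y * ρ = ρ * y := by
    intro y
    rw [Subgroup.mem_inf, Subgroup.mem_centralizer_singleton_iff]
  have h21 : IsPGroup 2 N1 := h2.to_le inf_le_left
  -- an element commuting with `ρ ^ 2` commutes with `ρ`
  have hsq : ∀ y : G, y * ρ ^ 2 = ρ ^ 2 * y → y * ρ = ρ * y := by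
    intro y hy
    have h8 : ρ = (ρ ^ 2) ^ 4 := by
      rw [← pow_mul]
      have : ρ ^ (2 * 4) = ρ ^ 7 * ρ := by rw [← pow_succ]
      rw [this, hρ7, one_mul]
    have hc : Commute y (ρ ^ 2) := hy
    have := hc.pow_right 4
    rw [← h8] at this
    exact this
  have hs_fix : ∀ y : G, y * ρ = ρ * y → (s * y * s⁻¹) * ρ = ρ * (s * y * s⁻¹) := by
    intro y hy
    apply hsq
    rw [← hsρ]
    have : s * y * s⁻¹ * (s * ρ * s⁻¹) = s * (y * ρ) * s⁻¹ := by group
    rw [this, hy]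
    group
  obtain ⟨n1, hn1, hn1'⟩ := cop_cyc hC h21 (m := 3) (by decide) hs3 (x := x * n)
    (by
      intro y hy
      rw [hN1] at hy ⊢
      exact ⟨hNs y hy.1, hs_fix y hy.2⟩)
    (by
      rw [hN1]
      constructor
      · have h := N.mul_mem (N.mul_mem (N.inv_mem hn) hxs) (hNs n hn)
        convert h using 1
        group
      · have h1 := hs_fix _ hn'
        have h2 : (x * n)⁻¹ * ρ = ρ * (x * n)⁻¹ := by
          rw [inv_mul_eq_iff_eq_mul, ← mul_assoc, hn', mul_assoc, mul_inv_cancel, mul_one]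
        calc (x * n)⁻¹ * (s * (x * n) * s⁻¹) * ρ = (x * n)⁻¹ * (s * (x * n) * s⁻¹ * ρ) := by group
          _ = (x * n)⁻¹ * (ρ * (s * (x * n) * s⁻¹)) := by rw [h1]
          _ = ((x * n)⁻¹ * ρ) * (s * (x * n) * s⁻¹) := by group
          _ = _ := by rw [h2]; group)
  rw [hN1] at hn1
  refine ⟨n * n1, N.mul_mem hn hn1.1, ?_, ?_⟩
  · rw [← mul_assoc, mul_assoc (x * n), hn1.2, ← mul_assoc, hn', mul_assoc]
  · rw [← mul_assoc]; exact hn1'

end

section cfg
variable {G : Type} [Group G] [Finite G] {π : G →* Gam}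

theorem Cfg.pg (h : Cfg π) {X : Subgroup G} (hX : X ≤ π.ker) : IsPGroup 2 X := h.ker2.to_le hX

theorem Cfg.two_pow (h : Cfg π) {x : G} (hx : x ∈ π.ker) : ∃ k : ℕ, orderOf x = 2 ^ k := by
  obtain ⟨k, hk⟩ := IsPGroup.iff_orderOf.1 h.ker2 ⟨x, hx⟩
  rw [Subgroup.orderOf_mk] at hk
  exact ⟨k, hk⟩

/-- an element of order `4` commuting with an element of odd order `m` gives order `4 m` -/
theorem Cfg.sq_of_comm (h : Cfg π) {x y : G} (hx : x ∈ π.ker) (hxy : x * y = y * x)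
    (hy : orderOf y = 5 ∨ orderOf y = 7) : x * x = 1 := by
  obtain ⟨k, hk⟩ := h.two_pow hx
  rcases k with _ | _ | k
  · rw [pow_zero, orderOf_eq_one_iff] at hk
    rw [hk, one_mul]
  · have := pow_orderOf_eq_one x
    rw [hk] at this
    simpa [pow_two] using this
  · exfalso
    -- `z = x ^ (2 ^ k)` has order 4
    set z := x ^ (2 ^ k) with hz
    have hz4 : orderOf z = 4 := by
      rw [hz, orderOf_pow, hk]
      have : Nat.gcd (2 ^ (k + 1 + 1)) (2 ^ k) = 2 ^ k :=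
        Nat.gcd_eq_right (pow_dvd_pow 2 (by omega))
      rw [this, pow_add, pow_add, mul_assoc]
      rw [Nat.mul_div_cancel_left _ (by positivity)]
      norm_num
    have hc : Commute z y := (show Commute x y from hxy).pow_left _
    have hco : Nat.Coprime (orderOf z) (orderOf y) := by
      rw [hz4]
      rcases hy with hy | hy <;> rw [hy] <;> decide
    have ho := hc.orderOf_mul_eq_mul_orderOf_of_coprime hco
    rw [hz4] at ho
    rcases hy with hy | hy <;> rw [hy] at ho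
    · exact h.n20 _ ho
    · exact h.n28 _ ho

/-- elements of the kernel commuting with an element of order 5 or 7 commute -/
theorem Cfg.comm_of_comm (h : Cfg π) {x x' y : G} (hx : x ∈ π.ker) (hx' : x' ∈ π.ker)
    (hxy : x * y = y * x) (hxy' : x' * y = y * x') (hy : orderOf y = 5 ∨ orderOf y = 7) :
    x * x' = x' * x := by
  have h1 := h.sq_of_comm hx hxy hy
  have h2 := h.sq_of_comm hx' hxy' hy
  have h3 := h.sq_of_comm (π.ker.mul_mem hx hx')
    (by rw [mul_assoc, hxy', ← mul_assoc, hxy, mul_assoc]) hy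
  have e1 : x⁻¹ = x := inv_eq_of_mul_eq_one_left h1
  have e2 : x'⁻¹ = x' := inv_eq_of_mul_eq_one_left h2
  have e3 : (x * x')⁻¹ = x * x' := inv_eq_of_mul_eq_one_left h3
  rw [_root_.mul_inv_rev, e1, e2] at e3
  exact e3.symm

/-- elements of order 15 act fixed point freely on the kernel -/
theorem Cfg.fix15 (h : Cfg π) {x z : G} (hx : x ∈ π.ker) (hxz : x * z = z * x)
    (hz : orderOf z = 15) : x = 1 := by
  by_contra hne
  obtain ⟨k, hk⟩ := h.two_pow hx
  rcases k with _ | k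
  · rw [pow_zero, orderOf_eq_one_iff] at hk
    exact hne hk
  · set y := x ^ (2 ^ k) with hy
    have hy2 : orderOf y = 2 := by
      rw [hy, orderOf_pow, hk]
      have : Nat.gcd (2 ^ (k + 1)) (2 ^ k) = 2 ^ k :=
        Nat.gcd_eq_right (pow_dvd_pow 2 (by omega))
      rw [this, pow_succ]
      rw [Nat.mul_div_cancel_left _ (by positivity)]
    have hc : Commute y z := (show Commute x z from hxz).pow_left _
    have hco : Nat.Coprime (orderOf y) (orderOf z) := by
      rw [hy2, hz]; decide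
    have ho := hc.orderOf_mul_eq_mul_orderOf_of_coprime hco
    rw [hy2, hz] at ho
    exact h.n30 _ ho

/-- elements of 2-power order have order dividing 8 -/
theorem Cfg.pow8 (h : Cfg π) {u : G} {k : ℕ} (hu : u ^ 2 ^ k = 1) : u ^ 8 = 1 := by
  obtain ⟨j, _, hj⟩ := (Nat.dvd_prime_pow Nat.prime_two).1 (orderOf_dvd_of_pow_eq_one hu)
  have hj3 : j ≤ 3 := by
    by_contra hc
    push Not at hc
    apply h.n16 (u ^ (2 ^ (j - 4)))
    rw [orderOf_pow, hj]
    have : Nat.gcd (2 ^ j) (2 ^ (j - 4)) = 2 ^ (j - 4) :=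
      Nat.gcd_eq_right (pow_dvd_pow 2 (by omega))
    rw [this]
    have e : 2 ^ j = 2 ^ (j - 4) * 16 := by
      rw [show (16 : ℕ) = 2 ^ 4 from rfl, ← pow_add]
      congr 1
      omega
    rw [e, Nat.mul_div_cancel_left _ (by positivity)]
  have : orderOf u ∣ 8 := by
    rw [hj]
    exact pow_dvd_pow 2 hj3
  exact orderOf_dvd_iff_pow_eq_one.1 this

/-- an element whose image has 2-power order has 2-power order -/
theorem Cfg.pow_two_of (h : Cfg π) {u : G} {k : ℕ} (hu : π u ^ 2 ^ k = 1) :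
    ∃ j : ℕ, u ^ 2 ^ j = 1 := by
  have hk : u ^ 2 ^ k ∈ π.ker := by rw [MonoidHom.mem_ker, map_pow, hu]
  obtain ⟨j, hj⟩ := h.two_pow hk
  refine ⟨k + j, ?_⟩
  have := pow_orderOf_eq_one (u ^ 2 ^ k)
  rw [hj, ← pow_mul, ← pow_add] at this
  exact this

/-- the norm in the group -/
def nrmG (u w : G) : G := w * (u * w * u⁻¹) * (u ^ 2 * w * (u ^ 2)⁻¹) * (u ^ 3 * w * (u ^ 3)⁻¹)

theorem nrmG_mul_pow (u w : G) : (w * u) ^ 4 = nrmG u w * u ^ 4 := by
  simp only [nrmG, pow_succ, pow_zero, one_mul]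
  group

/-- the consequence of the absence of elements of order 16 -/
theorem Cfg.nrm_id (h : Cfg π) {u w : G} (hw : w ∈ π.ker) (hu : π u ^ 4 = 1) :
    nrmG u w * (u ^ 4 * nrmG u w * (u ^ 4)⁻¹) = 1 := by
  have hu8 : u ^ 8 = 1 := by
    obtain ⟨j, hj⟩ := h.pow_two_of (k := 2) hu
    exact h.pow8 hj
  have hwu8 : (w * u) ^ 8 = 1 := by
    obtain ⟨j, hj⟩ := h.pow_two_of (k := 2) (u := w * u)
      (by rw [map_mul, MonoidHom.mem_ker.1 hw, one_mul]; exact hu)
    exact h.pow8 hj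
  have e : (w * u) ^ 8 = nrmG u w * u ^ 4 * (nrmG u w * u ^ 4) := by
    rw [show (8 : ℕ) = 4 * 2 from rfl, pow_mul, nrmG_mul_pow, pow_two]
  rw [hwu8] at e
  have e2 : (u ^ 4)⁻¹ = u ^ 4 := by
    apply inv_eq_of_mul_eq_one_left
    rw [← pow_add]; exact hu8
  rw [e2]
  rw [show nrmG u w * (u ^ 4 * nrmG u w * u ^ 4) = nrmG u w * u ^ 4 * (nrmG u w * u ^ 4) by group,
    ← e]

theorem IsRho.orderOf_eq {s ρ : G} (h : IsRho π s ρ) : orderOf ρ = 7 := by
  have h1 : orderOf ρ ∣ 7 := orderOf_dvd_of_pow_eq_one h.r7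
  rcases (Nat.dvd_prime (by decide)).1 h1 with h2 | h2
  · exfalso
    rw [orderOf_eq_one_iff] at h2
    have := h.πρ
    rw [h2, map_one] at this
    have h3 := congrArg (fun g : Gam => g.1 1 1) this
    revert h3
    decide
  · exact h2

theorem mem_ker_conj (g : G) {x : G} (hx : x ∈ π.ker) :
    g * x * g⁻¹ ∈ π.ker := (ker_normal π).conj_mem x hx g

end cfg

end Pool.Agent.A8
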