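import Pool.Agent.Helper89.A8.GFix

/-!
# Block G21 : (VI)
-/

set_option autoImplicit false
set_option linter.unusedSectionVars false

namespace Pool.Agent.A8

open Matrix
open scoped commutatorElement

/-! ### finite facts -/

/-- `e₂ ↦ e₂ + e₀` -/
def gx : Gam := mkG !![1,0,1,0; 0,1,0,0; 0,0,1,0; 0,0,0,1] !![1,0,1,0; 0,1,0,0; 0,0,1,0; 0,0,0,1]
  (by decide) (by decide)

theorem VI_fixF (v : MV) (h1 : act gh v = v) (h2 : act gs v = v) : v = 0 ∨ v = vE0 := by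
  rw [act_MV] at h1 h2
  revert v
  decide

theorem VI_fixA (v : MV) (h1 : act gs v = v) (h2 : act gr v = v) : v = 0 := by
  rw [act_MV] at h1 h2
  revert v
  decide

theorem VI_fixT (v : MV) (h1 : act gs v = v) (h2 : act gt⁻¹ v + v = 0) : v = 0 ∨ v = vE0 := by
  rw [act_MV] at h1 h2
  revert v
  decide

theorem VI_gh_vE0 : act gh vE0 = vE0 := by
  rw [act_MV]
  decide

theorem VI_gs_vE0 : act gs vE0 = vE0 := by
  rw [act_MV]
  decide

theorem VI_TT_vE0 {t : Gam} (ht : t ∈ TT) : act t vE0 = vE0 := by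
  rw [act_MV]
  have h : ∀ i, t.1 i 0 = vE0 i := by
    intro i
    refine Fin.cases ?_ (fun j => ?_) i
    · exact ht.1
    · rw [ht.2 j 0]
      revert j
      decide
  funext i
  rw [← h i]
  have e : vE0 = (Pi.single 0 1 : Fin 4 → ZMod 2) := by decide
  rw [e, Matrix.mulVec_single_one]
  rfl

theorem VI_Ls (l : ML) (h : act gs l = l) : act gr l = l ∧ act gt l = l := by
  rw [act_ML] at h
  rw [act_ML, act_ML]
  revert l
  decide

theorem VI_Lx (l : ML) (h : act gs l = l) (h' : act gx l = l) : l = 0 ∨ l = lE01 := by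
  rw [act_ML] at h h'
  revert l
  decide

theorem VI_gx1 : act gx (act gr vE0) = act gr vE0 := by
  rw [act_MV, act_MV]
  decide

theorem VI_gx2 : act gx (act (gr ^ 2) vE0) = act (gr ^ 2) vE0 := by
  rw [act_MV, act_MV]
  decide

theorem VI_sum3 : vE0 + act gr vE0 + act (gr ^ 2) vE0 = 0 := by
  rw [act_MV, act_MV]
  decide

theorem VI_TT_gt : gt ∈ TT := by
  refine ⟨by decide, ?_⟩
  decide

theorem VI_TT_cases (t : Gam) (ht : t ∈ TT) : t = 1 ∨ ∃ i : ℕ, t = gh ^ i * gt * (gh ^ i)⁻¹ := by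
  have h : ∀ a b c : ZMod 2, (a = 0 ∧ b = 0 ∧ c = 0) ∨ ∃ i : Fin 7,
      (!![1,a,b,c; 0,1,0,0; 0,0,1,0; 0,0,0,1] : M4) =
        (gh ^ (i : ℕ) * gt * (gh ^ (i : ℕ))⁻¹ : Gam).1 := by
    decide
  have e : t.1 = !![1, t.1 0 1, t.1 0 2, t.1 0 3; 0,1,0,0; 0,0,1,0; 0,0,0,1] := by
    obtain ⟨h0, h1⟩ := ht
    have h2 : ∀ (a b c : ZMod 2) (k : Fin 3) (j : Fin 4), (1 : M4) k.succ j =
        (!![1, a, b, c; 0,1,0,0; 0,0,1,0; 0,0,0,1] : M4) k.succ j := by decide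
    ext i j
    refine Fin.cases ?_ (fun k => ?_) i
    · fin_cases j <;> simp [h0]
    · rw [h1 k j]
      exact h2 _ _ _ k j
  rcases h (t.1 0 1) (t.1 0 2) (t.1 0 3) with ⟨ha, hb, hc⟩ | ⟨i, hi⟩
  · left
    apply Units.ext
    rw [e, ha, hb, hc]
    decide
  · right
    refine ⟨i, Units.ext ?_⟩
    rw [← hi, ← e]

/-! ### the cocycle -/

section
variable {G : Type} [Group G] [Finite G] {π : G →* Gam}

theorem VI_coc {s ρ : G} {Y0 U : Subgroup G} (hU : IsU π s ρ Y0 U) (hY0 : Y0 ≤ ZK π)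
    (hπs : π s = gs) (hπρ : π ρ = gh) {x : G} (hxK : x ∈ π.ker) (hxρ : x * ρ = ρ * x)
    (hxs : x * s = s * x)
    {W : Subgroup G} (hW : ∀ u ∈ U, ⁅u, x⁆ ∈ W) (hWn : W.Normal)
    {M : Type} [AddCommGroup M] [Module RG M] {ψ : G → M} (hψ : HomOn π W ψ) :
    ∃ l : Gam → M, (∀ u ∈ U, ψ ⁅u, x⁆ = l (π u)) ∧
      (∀ t ∈ TT, ∀ t' ∈ TT, l (t * t') = l t + act t (l t')) ∧
      (∀ t ∈ TT, l (gh * t * gh⁻¹) = act gh (l t)) ∧
      (∀ t ∈ TT, l (gs * t * gs⁻¹) = act gs (l t)) := by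
  classical
  -- independence of the lift
  have key : ∀ u ∈ U, ∀ u' ∈ U, π u = π u' → ⁅u, x⁆ = ⁅u', x⁆ := by
    intro u hu u' hu' h
    have hk : u'⁻¹ * u ∈ Y0 :=
      hU.ker _ (U.mul_mem (U.inv_mem hu') hu) (by rw [map_mul, map_inv, h, inv_mul_cancel])
    have hc := (mem_ZK.1 (hY0 hk)).1 x hxK
    have e : u = u' * (u'⁻¹ * u) := by group
    rw [e]
    set k := u'⁻¹ * u with hk'
    rw [commutatorElement_def, commutatorElement_def]
    calc u' * k * x * (u' * k)⁻¹ * x⁻¹ = u' * (k * x) * k⁻¹ * u'⁻¹ * x⁻¹ := by group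
      _ = u' * (x * k) * k⁻¹ * u'⁻¹ * x⁻¹ := by rw [hc]
      _ = _ := by group
  choose! c hcU hcπ using hU.surj
  refine ⟨fun t => if t ∈ TT then ψ ⁅c t, x⁆ else 0, ?_, ?_, ?_, ?_⟩
  · intro u hu
    have ht := hU.map u hu
    simp only [if_pos ht]
    rw [key u hu (c (π u)) (hcU _ ht) (hcπ _ ht).symm]
  · intro t ht t' ht'
    have hm := U.mul_mem (hcU t ht) (hcU t' ht')
    have hπm : π (c t * c t') = t * t' := by rw [map_mul, hcπ t ht, hcπ t' ht']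
    have htt : t * t' ∈ TT := by rw [← hπm]; exact hU.map _ hm
    simp only [if_pos htt, if_pos ht, if_pos ht']
    rw [key _ (hcU _ htt) _ hm (by rw [hcπ _ htt, hπm])]
    have e : ⁅c t * c t', x⁆ = (c t * ⁅c t', x⁆ * (c t)⁻¹) * ⁅c t, x⁆ := by
      rw [commutatorElement_def, commutatorElement_def, commutatorElement_def]; group
    rw [e, hψ.mul _ (hWn.conj_mem _ (hW _ (hcU _ ht')) _) _ (hW _ (hcU _ ht)),
      hψ.conj _ _ (hW _ (hcU _ ht')), hcπ t ht, add_comm]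
  · intro t ht
    have hm := hU.nρ _ (hcU t ht)
    have hπm : π (ρ * c t * ρ⁻¹) = gh * t * gh⁻¹ := by
      rw [map_mul, map_mul, map_inv, hcπ t ht, hπρ]
    have htt : gh * t * gh⁻¹ ∈ TT := by rw [← hπm]; exact hU.map _ hm
    simp only [if_pos htt, if_pos ht]
    rw [key _ (hcU _ htt) _ hm (by rw [hcπ _ htt, hπm])]
    have e : ⁅ρ * c t * ρ⁻¹, x⁆ = ρ * ⁅c t, x⁆ * ρ⁻¹ := by
      have e1 : ρ⁻¹ * x = x * ρ⁻¹ := by
        rw [inv_mul_eq_iff_eq_mul, ← mul_assoc, ← hxρ]; group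
      have e2 : ρ * x⁻¹ = x⁻¹ * ρ := by
        rw [eq_inv_mul_iff_mul_eq, ← mul_assoc, hxρ]; group
      rw [commutatorElement_def, commutatorElement_def]
      calc ρ * c t * ρ⁻¹ * x * (ρ * c t * ρ⁻¹)⁻¹ * x⁻¹
          = ρ * c t * (ρ⁻¹ * x) * ρ * (c t)⁻¹ * ρ⁻¹ * x⁻¹ := by group
        _ = ρ * c t * (x * ρ⁻¹) * ρ * (c t)⁻¹ * ρ⁻¹ * x⁻¹ := by rw [e1]
        _ = ρ * (c t * x * (c t)⁻¹) * (ρ⁻¹ * x⁻¹) := by group
        _ = ρ * (c t * x * (c t)⁻¹) * (x * ρ)⁻¹ := by group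
        _ = ρ * (c t * x * (c t)⁻¹) * (ρ * x)⁻¹ := by rw [hxρ]
        _ = _ := by group
    rw [e, hψ.conj _ _ (hW _ (hcU _ ht)), hπρ]
  · intro t ht
    have hm := hU.ns _ (hcU t ht)
    have hπm : π (s * c t * s⁻¹) = gs * t * gs⁻¹ := by
      rw [map_mul, map_mul, map_inv, hcπ t ht, hπs]
    have htt : gs * t * gs⁻¹ ∈ TT := by rw [← hπm]; exact hU.map _ hm
    simp only [if_pos htt, if_pos ht]
    rw [key _ (hcU _ htt) _ hm (by rw [hcπ _ htt, hπm])]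
    have e : ⁅s * c t * s⁻¹, x⁆ = s * ⁅c t, x⁆ * s⁻¹ := by
      have e1 : s⁻¹ * x = x * s⁻¹ := by
        rw [inv_mul_eq_iff_eq_mul, ← mul_assoc, ← hxs]; group
      rw [commutatorElement_def, commutatorElement_def]
      calc s * c t * s⁻¹ * x * (s * c t * s⁻¹)⁻¹ * x⁻¹
          = s * c t * (s⁻¹ * x) * s * (c t)⁻¹ * s⁻¹ * x⁻¹ := by group
        _ = s * c t * (x * s⁻¹) * s * (c t)⁻¹ * s⁻¹ * x⁻¹ := by rw [e1]
        _ = s * (c t * x * (c t)⁻¹) * (x * s)⁻¹ := by group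
        _ = s * (c t * x * (c t)⁻¹) * (s * x)⁻¹ := by rw [hxs]
        _ = _ := by group
    rw [e, hψ.conj _ _ (hW _ (hcU _ ht)), hπs]

/-- the decomposition `τ = u x'' l₀` -/
theorem VI_dec (hC : S_COP) (hcfg : Cfg π) {Y0 U : Subgroup G} (n0 : Y0.Normal)
    (hY0 : Y0 ≤ ZK π) (h0 : GHg π .v π.ker Y0) {s r τ ρ : G} (hF : Frame π s r τ)
    (hρ : IsRho π s ρ) (hU : IsU π s ρ Y0 U) :
    ∃ u ∈ U, ∃ x2 ∈ π.ker, ∃ l0 ∈ Y0, π u = gt ∧ u * s = s * u ∧ x2 * ρ = ρ * x2 ∧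
      x2 * s = s * x2 ∧ l0 * s = s * l0 ∧ τ = u * x2 * l0 ∧ τ * τ ∈ Y0 := by
  -- u
  obtain ⟨u0, hu0, hπu0⟩ := hU.surj gt VI_TT_gt
  obtain ⟨n, hn, hn'⟩ := cop_cyc hC (N := U ⊓ π.ker) (hcfg.pg inf_le_right) (m := 3) (by decide)
    hF.s3 (fun y hy => ⟨hU.ns y hy.1, mem_ker_conj s hy.2⟩) (x := u0)
    ⟨U.mul_mem (U.inv_mem hu0) (hU.ns _ hu0), by
      change _ ∈ π.ker
      rw [MonoidHom.mem_ker, map_mul, map_mul, map_mul, map_inv, map_inv, hπu0, hF.πs,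
        ← gt_gs]
      group⟩
  set u := u0 * n with hu
  have huU : u ∈ U := U.mul_mem hu0 hn.1
  have hπu : π u = gt := by rw [hu, map_mul, hπu0, MonoidHom.mem_ker.1 hn.2, mul_one]
  -- x'
  set x' := u⁻¹ * τ with hx'
  have hx'K : x' ∈ π.ker := by
    rw [MonoidHom.mem_ker, hx', map_mul, map_inv, hπu, hF.πτ, inv_mul_cancel]
  have hx's : x' * s = s * x' := by
    rw [hx', mul_assoc, hF.τs, ← mul_assoc, ← mul_assoc]
    congr 1
    rw [inv_mul_eq_iff_eq_mul, ← mul_assoc, hn']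
    group
  -- τ²
  have hττK : τ * τ ∈ π.ker := by
    rw [MonoidHom.mem_ker, map_mul, hF.πτ]
    apply Units.ext
    decide
  have hττs : τ * τ * s = s * (τ * τ) := by
    rw [mul_assoc, hF.τs, ← mul_assoc, hF.τs, mul_assoc]
  have hττr : τ * τ * r = r * (τ * τ) := by
    have h1 : τ * r = r⁻¹ * τ := by
      have := hF.τr
      rw [mul_inv_eq_iff_eq_mul] at this
      exact this
    have h2 : τ * r⁻¹ = r * τ := by
      have h3 : τ * r⁻¹ * τ⁻¹ = r := by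
        have h4 : (τ * r * τ⁻¹)⁻¹ = r := by rw [hF.τr, inv_inv]
        calc τ * r⁻¹ * τ⁻¹ = (τ * r * τ⁻¹)⁻¹ := by group
          _ = r := h4
      rw [mul_inv_eq_iff_eq_mul] at h3
      exact h3
    rw [mul_assoc, h1, ← mul_assoc, h2, mul_assoc]
  have huu : u * u ∈ Y0 := hU.ker _ (U.mul_mem huU huU) (by
    rw [map_mul, hπu]
    apply Units.ext
    decide)
  have hφττ : ∀ φ : G → MV, HomOn π π.ker φ → φ (τ * τ) = 0 := by
    intro φ hφ
    apply VI_fixA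
    · have := hφ.conj s _ hττK
      rw [← hττs, mul_inv_cancel_right, hF.πs] at this
      exact this.symm
    · have := hφ.conj r _ hττK
      rw [← hττr, mul_inv_cancel_right, hF.πr] at this
      exact this.symm
  have hττ : τ * τ ∈ Y0 := h0 _ hττK (fun φ hφ _ => hφττ φ hφ)
  -- φ x'
  have hφx' : ∀ φ : G → MV, HomOn π π.ker φ → (∀ y ∈ Y0, φ y = 0) → φ x' = 0 ∨ φ x' = vE0 := by
    intro φ hφ hφ0
    apply VI_fixT
    · have := hφ.conj s _ hx'K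
      rw [← hx's, mul_inv_cancel_right, hF.πs] at this
      exact this.symm
    · have e : τ * τ = (u * u) * ((u⁻¹ * x' * u⁻¹⁻¹) * x') := by
        rw [hx']; group
      have h1 := hφττ φ hφ
      have huuK : u * u ∈ π.ker := (ZK_le π) (hY0 huu)
      rw [e, hφ.mul _ huuK _ (π.ker.mul_mem (mem_ker_conj _ hx'K) hx'K),
        hφ.mul _ (mem_ker_conj _ hx'K) _ hx'K, hφ0 _ huu, zero_add, hφ.conj _ _ hx'K, map_inv,
        hπu] at h1
      exact h1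
  obtain ⟨l1, hl1, hl1ρ, hl1s⟩ := cop_F hC (N := Y0) (hcfg.pg (hY0.trans (ZK_le π))) hρ.r7 hF.s3
    hρ.sρ (fun y hy => n0.conj_mem y hy ρ) (fun y hy => n0.conj_mem y hy s) (x := x')
    (by
      apply h0
      · exact π.ker.mul_mem (π.ker.inv_mem hx'K) (mem_ker_conj _ hx'K)
      · intro φ hφ hφ0
        rw [hφ.mul _ (π.ker.inv_mem hx'K) _ (mem_ker_conj _ hx'K), hφ.map_inv hx'K,
          hφ.conj _ _ hx'K, hρ.πρ]
        rcases hφx' φ hφ hφ0 with h | h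
        · rw [h, act_zero, add_zero]
        · rw [h, VI_gh_vE0, add_self])
    (by
      rw [← hx's, mul_inv_cancel_right, inv_mul_cancel]
      exact Y0.one_mem)
  refine ⟨u, huU, x' * l1, π.ker.mul_mem hx'K ((ZK_le π) (hY0 hl1)), l1⁻¹, Y0.inv_mem hl1, hπu,
    hn', hl1ρ, hl1s, ?_, ?_, hττ⟩
  · have h1 : l1 * s = s * l1 := by
      have h2 : x' * (l1 * s) = x' * (s * l1) := by
        rw [← mul_assoc, hl1s, ← mul_assoc, ← hx's, mul_assoc]
      exact mul_left_cancel h2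
    rw [inv_mul_eq_iff_eq_mul, ← mul_assoc, h1]
    group
  · rw [hx']; group

end

theorem bVI (hC : S_COP) (hL : S_COCL) (hV : S_COCV) : S_VI := by
  intro G _ _ π hcfg Y0 Y2 hE s r τ ρ hF hρ U hU x hxK hxρ hxs
  obtain ⟨u, huU, x2, hx2K, l0, hl0, hπu, hus, hx2ρ, hx2s, hl0s, hτ, hττ⟩ :=
    VI_dec hC hcfg hE.n0 hE.le0 hE.h0 hF hρ hU
  have hY0K : Y0 ≤ π.ker := hE.le0.trans (ZK_le π)
  have hcen : ∀ y ∈ Y0, ∀ k ∈ π.ker, k * y = y * k := fun y hy => (mem_ZK.1 (hE.le0 hy)).1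
  -- values of homs on x
  have hφx : ∀ φ : G → MV, HomOn π π.ker φ → φ x = 0 ∨ φ x = vE0 := by
    intro φ hφ
    apply VI_fixF
    · have := hφ.conj ρ _ hxK
      rw [← hxρ, mul_inv_cancel_right, hρ.πρ] at this
      exact this.symm
    · have := hφ.conj s _ hxK
      rw [← hxs, mul_inv_cancel_right, hF.πs] at this
      exact this.symm
  -- commutators with U
  have hW0 : ∀ u ∈ U, ⁅u, x⁆ ∈ Y0 := by
    intro u hu
    have hK : ⁅u, x⁆ ∈ π.ker := by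
      rw [commutatorElement_def]
      exact π.ker.mul_mem (mem_ker_conj u hxK) (π.ker.inv_mem hxK)
    refine hE.h0 _ hK (fun φ hφ _ => ?_)
    rw [hφ.comm (ker_normal π) u hxK]
    rcases hφx φ hφ with h | h
    · rw [h, act_zero, add_zero]
    · rw [h, VI_TT_vE0 (hU.map u hu), add_self]
  -- z
  set z := ⁅u, x⁆ with hz
  have hzY : z ∈ Y0 := hW0 u huU
  have hx2x : x2 * x = x * x2 := hcfg.comm_of_comm hx2K hxK hx2ρ hxρ (Or.inr hρ.orderOf_eq)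
  have hzτ : τ * x * τ⁻¹ = z * x := by
    have h1 : x * l0 = l0 * x := hcen l0 hl0 x hxK
    rw [hτ, hz, commutatorElement_def]
    calc u * x2 * l0 * x * (u * x2 * l0)⁻¹ = u * (x2 * (l0 * x) * l0⁻¹ * x2⁻¹) * u⁻¹ := by group
      _ = u * (x2 * (x * l0) * l0⁻¹ * x2⁻¹) * u⁻¹ := by rw [h1]
      _ = u * (x2 * x * x2⁻¹) * u⁻¹ := by group
      _ = u * (x * x2 * x2⁻¹) * u⁻¹ := by rw [hx2x]
      _ = _ := by group
  -- s commutes
  have hcs : Commute x s := hxs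
  have hrs : Commute r s := hF.sr.symm
  have hus' : Commute u s := hus
  have hzs : Commute z s := by
    rw [hz, commutatorElement_def]
    exact ((hus'.mul_left hcs).mul_left hus'.inv_left).mul_left hcs.inv_left
  set xa := r * x * r⁻¹ with hxa
  set xb := r ^ 2 * x * (r ^ 2)⁻¹ with hxb
  have hxaK : xa ∈ π.ker := mem_ker_conj r hxK
  have hxbK : xb ∈ π.ker := mem_ker_conj _ hxK
  have hxas : Commute xa s := (hrs.mul_left hcs).mul_left hrs.inv_left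
  have hxbs : Commute xb s := ((hrs.pow_left 2).mul_left hcs).mul_left (hrs.pow_left 2).inv_left
  set n := x * xa * xb with hn
  set m := x * xb * xa with hm
  set c := ⁅xa, xb⁆ with hc
  have hnK : n ∈ π.ker := π.ker.mul_mem (π.ker.mul_mem hxK hxaK) hxbK
  have hcK : c ∈ π.ker := by
    rw [hc, commutatorElement_def]
    exact π.ker.mul_mem (mem_ker_conj _ hxbK) (π.ker.inv_mem hxbK)
  have hcY : c ∈ Y0 := by
    refine hE.h0 _ hcK (fun φ hφ _ => ?_)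
    rw [hc, hφ.comm (ker_normal π) xa hxbK, MonoidHom.mem_ker.1 hxaK, act_one, add_self]
  have hnY : n ∈ Y0 := by
    refine hE.h0 _ hnK (fun φ hφ _ => ?_)
    rw [hn, hφ.mul _ (π.ker.mul_mem hxK hxaK) _ hxbK, hφ.mul _ hxK _ hxaK, hxa, hxb,
      hφ.conj _ _ hxK, hφ.conj _ _ hxK, map_pow, hF.πr]
    rcases hφx φ hφ with h | h
    · rw [h]; simp
    · rw [h, VI_sum3]
  have hncm : n = c * m := by
    have h1 : c * x = x * c := (hcen c hcY x hxK).symm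
    have h2 : xa * xb = c * (xb * xa) := by rw [hc, commutatorElement_def]; group
    calc n = x * (xa * xb) := by rw [hn, mul_assoc]
      _ = (x * c) * (xb * xa) := by rw [h2]; exact (mul_assoc _ _ _).symm
      _ = (c * x) * (xb * xa) := by rw [h1]
      _ = c * m := by rw [hm]; group
  have hmY : m ∈ Y0 := by
    have : m = c⁻¹ * n := by rw [hncm]; group
    rw [this]
    exact Y0.mul_mem (Y0.inv_mem hcY) hnY
  -- conjugation by τ
  have hτr : τ * r = r⁻¹ * τ := by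
    have := hF.τr
    rw [mul_inv_eq_iff_eq_mul] at this
    exact this
  have hr3 : r ^ 3 = 1 := hF.r3
  have hrinv : r⁻¹ = r ^ 2 := inv_eq_of_mul_eq_one_left (by rw [← pow_succ, hr3])
  have hr2inv : (r ^ 2)⁻¹ = r := inv_eq_of_mul_eq_one_left (by rw [← pow_succ', hr3])
  have hτn : τ * n * τ⁻¹ = z * (r⁻¹ * z * r⁻¹⁻¹) * ((r ^ 2)⁻¹ * z * (r ^ 2)⁻¹⁻¹) * m := by
    have h1 : τ * xa * τ⁻¹ = r⁻¹ * (z * x) * r := by
      rw [← hzτ, hxa]
      calc τ * (r * x * r⁻¹) * τ⁻¹ = (τ * r) * x * (τ * r)⁻¹ := by group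
        _ = _ := by rw [hτr]; group
    have h2 : τ * xb * τ⁻¹ = (r ^ 2)⁻¹ * (z * x) * r ^ 2 := by
      rw [← hzτ, hxb]
      have h3 : τ * r ^ 2 = (r ^ 2)⁻¹ * τ := by
        rw [pow_two, ← mul_assoc, hτr, mul_assoc, hτr]; group
      calc τ * (r ^ 2 * x * (r ^ 2)⁻¹) * τ⁻¹ = (τ * r ^ 2) * x * (τ * r ^ 2)⁻¹ := by group
        _ = _ := by rw [h3]; group
    have h3 : r⁻¹ * x * r = xb := by
      rw [hxb, hr2inv, hrinv]
    have h4 : (r ^ 2)⁻¹ * x * r ^ 2 = xa := by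
      rw [hxa, hr2inv, hrinv]
    have hz1 : r⁻¹ * z * r⁻¹⁻¹ ∈ Y0 := hE.n0.conj_mem z hzY _
    have hz2 : (r ^ 2)⁻¹ * z * (r ^ 2)⁻¹⁻¹ ∈ Y0 := hE.n0.conj_mem z hzY _
    have c1 := hcen _ hz1 x hxK
    have c2 := hcen _ hz2 (x * xb) (π.ker.mul_mem hxK hxbK)
    calc τ * n * τ⁻¹ = (τ * x * τ⁻¹) * (τ * xa * τ⁻¹) * (τ * xb * τ⁻¹) := by rw [hn]; group
      _ = (z * x) * (r⁻¹ * (z * x) * r) * ((r ^ 2)⁻¹ * (z * x) * r ^ 2) := by rw [hzτ, h1, h2]
      _ = z * (x * (r⁻¹ * z * r⁻¹⁻¹)) * (r⁻¹ * x * r) * ((r ^ 2)⁻¹ * z * (r ^ 2)⁻¹⁻¹) *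
            ((r ^ 2)⁻¹ * x * r ^ 2) := by group
      _ = z * ((r⁻¹ * z * r⁻¹⁻¹) * x) * xb * ((r ^ 2)⁻¹ * z * (r ^ 2)⁻¹⁻¹) * xa := by
          rw [c1, h3, h4]
      _ = z * (r⁻¹ * z * r⁻¹⁻¹) * ((x * xb) * ((r ^ 2)⁻¹ * z * (r ^ 2)⁻¹⁻¹)) * xa := by group
      _ = z * (r⁻¹ * z * r⁻¹⁻¹) * (((r ^ 2)⁻¹ * z * (r ^ 2)⁻¹⁻¹) * (x * xb)) * xa := by rw [c2]
      _ = _ := by rw [hm]; group
  have hns : Commute n s := (hcs.mul_left hxas).mul_left hxbs
  have hcs' : Commute c s := by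
    rw [hc, commutatorElement_def]
    exact ((hxas.mul_left hxbs).mul_left hxas.inv_left).mul_left hxbs.inv_left
  have fixs : ∀ {W : Subgroup G} {ψ : G → ML}, HomOn π W ψ → ∀ y ∈ W, Commute y s →
      act gs (ψ y) = ψ y := by
    intro W ψ hψ y hy hys
    have := hψ.conj s y hy
    rw [← hys.eq, mul_inv_cancel_right, hF.πs] at this
    exact this.symm
  -- ψ z = 0
  have hψz : ∀ ψ : G → ML, HomOn π Y0 ψ → ψ z = 0 := by
    intro ψ hψ
    have e1 : ψ z = ψ c := by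
      have h1 := VI_Ls _ (fixs hψ n hnY hns)
      have h2 : ψ (τ * n * τ⁻¹) = ψ n := by
        rw [hψ.conj _ _ hnY, hF.πτ, h1.2]
      have hz1 : r⁻¹ * z * r⁻¹⁻¹ ∈ Y0 := hE.n0.conj_mem z hzY _
      have hz2 : (r ^ 2)⁻¹ * z * (r ^ 2)⁻¹⁻¹ ∈ Y0 := hE.n0.conj_mem z hzY _
      have h3 := (VI_Ls _ (fixs hψ z hzY hzs)).1
      have h4 : act gr⁻¹ (ψ z) = ψ z := by
        conv_lhs => rw [← h3]
        rw [act_inv_act]
      have h5 : act (gr ^ 2)⁻¹ (ψ z) = ψ z := by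
        have : (gr ^ 2 : Gam)⁻¹ = gr⁻¹ * gr⁻¹ := by group
        rw [this, act_mul, h4, h4]
      rw [hτn, hψ.mul _ (Y0.mul_mem (Y0.mul_mem hzY hz1) hz2) _ hmY,
        hψ.mul _ (Y0.mul_mem hzY hz1) _ hz2, hψ.mul _ hzY _ hz1, hψ.conj _ _ hzY,
        hψ.conj _ _ hzY, map_inv, map_inv, map_pow, hF.πr, h4, h5, hncm,
        hψ.mul _ hcY _ hmY, add_self, zero_add] at h2
      exact add_right_cancel h2
    -- ψ c has no e23 component
    have e2 : ψ c = 0 ∨ ψ c = lE01 := by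
      apply VI_Lx _ (fixs hψ c hcY hcs')
      obtain ⟨g, hg⟩ := hcfg.surj gx
      have ha : xa⁻¹ * (g * xa * g⁻¹) ∈ Y0 := by
        refine hE.h0 _ (π.ker.mul_mem (π.ker.inv_mem hxaK) (mem_ker_conj g hxaK))
          (fun φ hφ _ => ?_)
        rw [hφ.mul _ (π.ker.inv_mem hxaK) _ (mem_ker_conj g hxaK), hφ.map_inv hxaK,
          hφ.conj _ _ hxaK, hxa, hφ.conj _ _ hxK, hF.πr, hg]
        rcases hφx φ hφ with h | h
        · rw [h]; simp
        · rw [h, VI_gx1, add_self]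
      have hb : xb⁻¹ * (g * xb * g⁻¹) ∈ Y0 := by
        refine hE.h0 _ (π.ker.mul_mem (π.ker.inv_mem hxbK) (mem_ker_conj g hxbK))
          (fun φ hφ _ => ?_)
        rw [hφ.mul _ (π.ker.inv_mem hxbK) _ (mem_ker_conj g hxbK), hφ.map_inv hxbK,
          hφ.conj _ _ hxbK, hxb, hφ.conj _ _ hxK, map_pow, hF.πr, hg]
        rcases hφx φ hφ with h | h
        · rw [h]; simp
        · rw [h, VI_gx2, add_self]
      have h1 : g * c * g⁻¹ = c := by
        set ka := xa⁻¹ * (g * xa * g⁻¹) with hka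
        set kb := xb⁻¹ * (g * xb * g⁻¹) with hkb
        have e1 : g * xa * g⁻¹ = xa * ka := by rw [hka]; group
        have e2 : g * xb * g⁻¹ = xb * kb := by rw [hkb]; group
        have c1 := hcen ka ha (xb * kb) (π.ker.mul_mem hxbK (hY0K hb))
        have c2 := hcen kb hb (xa⁻¹) (π.ker.inv_mem hxaK)
        rw [hc, conjugate_commutatorElement, e1, e2, commutatorElement_def,
          commutatorElement_def]
        calc xa * ka * (xb * kb) * (xa * ka)⁻¹ * (xb * kb)⁻¹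
            = xa * (ka * (xb * kb)) * ka⁻¹ * xa⁻¹ * kb⁻¹ * xb⁻¹ := by group
          _ = xa * ((xb * kb) * ka) * ka⁻¹ * xa⁻¹ * kb⁻¹ * xb⁻¹ := by rw [c1]
          _ = xa * xb * (kb * xa⁻¹) * kb⁻¹ * xb⁻¹ := by group
          _ = xa * xb * (xa⁻¹ * kb) * kb⁻¹ * xb⁻¹ := by rw [c2]
          _ = _ := by group
      have h2 := hψ.conj g c hcY
      rw [h1, hg] at h2
      exact h2.symm
    -- the cocycle
    obtain ⟨l, hl, hl1, hl2, hl3⟩ := VI_coc hU hE.le0 hF.πs hρ.πρ hxK hxρ hxs hW0 hE.n0 hψ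
    have e3 := hL l hl1 hl2 hl3
    rw [← hπu, ← hl u huU, ← hz, e1] at e3
    rw [e1]
    rcases e2 with e2 | e2
    · exact e2
    · rcases e3 with e3 | e3
      · exact e3
      · exfalso
        rw [e2] at e3
        revert e3
        decide
  -- all commutators lie in Y2
  have hW2 : ∀ v ∈ U, ⁅v, x⁆ ∈ Y2 := by
    intro v hv
    refine hE.h2 _ (hW0 v hv) (fun ψ hψ _ => ?_)
    obtain ⟨l, hl, hl1, hl2, hl3⟩ := VI_coc hU hE.le0 hF.πs hρ.πρ hxK hxρ hxs hW0 hE.n0 hψ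
    rw [hl v hv]
    have hgt : l gt = 0 := by rw [← hπu, ← hl u huU, ← hz, hψz ψ hψ]
    have hpow : ∀ i : ℕ, gh ^ i * gt * (gh ^ i)⁻¹ ∈ TT ∧ l (gh ^ i * gt * (gh ^ i)⁻¹) = 0 := by
      intro i
      induction i with
      | zero => simpa using ⟨VI_TT_gt, hgt⟩
      | succ k ih =>
        have e : gh ^ (k + 1) * gt * (gh ^ (k + 1))⁻¹ = gh * (gh ^ k * gt * (gh ^ k)⁻¹) * gh⁻¹ := by
          rw [pow_succ']; group
        rw [e]
        refine ⟨?_, by rw [hl2 _ ih.1, ih.2, act_zero]⟩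
        obtain ⟨w, hw, hw'⟩ := hU.surj _ ih.1
        rw [← hw', ← hρ.πρ, ← map_inv, ← map_mul, ← map_mul]
        exact hU.map _ (hU.nρ w hw)
    rcases VI_TT_cases (π v) (hU.map v hv) with h | ⟨i, hi⟩
    · have h1 := hl1 1 (by rw [← h]; exact hU.map v hv) 1 (by rw [← h]; exact hU.map v hv)
      rw [mul_one, act_one] at h1
      rw [h]
      exact left_eq_add.1 h1
    · rw [hi, (hpow i).2]
  -- and are trivial
  have hW3 : ∀ v ∈ U, ⁅v, x⁆ = 1 := by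
    intro v hv
    have : ⁅v, x⁆ ∈ (⊥ : Subgroup G) := by
      refine hE.h3 _ (hW2 v hv) (fun ψ hψ _ => ?_)
      obtain ⟨l, hl, hl1, hl2, hl3⟩ := VI_coc hU hE.le0 hF.πs hρ.πρ hxK hxρ hxs hW2 hE.n2 hψ
      rw [hl v hv]
      exact hV l hl1 hl2 hl3 _ (hU.map v hv)
    exact Subgroup.mem_bot.1 this
  refine ⟨fun v hv => commutatorElement_eq_one_iff_mul_comm.1 (hW3 v hv), ?_⟩
  have hz1 : z = 1 := hW3 u huU
  rw [hz1, one_mul, mul_inv_eq_iff_eq_mul] at hzτ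
  exact hzτ

end Pool.Agent.A8
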