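import Pool.Agent.Helper89.A8.Final
import Pool.Agent.Helper89.A8.VI
import Pool.Agent.Helper16.A8.M01
import Pool.Agent.Helper67.A8.GG
import Pool.Agent.Helper43.A8.M04
import Pool.Agent.Helper43.A8.M05
import Pool.Agent.Helper26.A8.M06
import Pool.Agent.Helper68.A8.M07
import Pool.Agent.Helper97.A8.BAD
import Pool.Agent.Helper11.A8.UNIV
import Pool.Agent.Helper94.A8.M11
import Pool.Agent.Helper60.A8.M13
import Pool.Agent.Helper60.A8.M16
import Pool.Agent.Helper14.A8.L2M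
import Pool.Agent.Helper40.A8.M18
import Pool.Agent.Helper11.A8.MTA
import Pool.Agent.Helper46.A8.M19b
import Pool.Agent.Helper29.A8.M19c
import Pool.Agent.Helper34.A8.M19d
import Pool.Agent.Helper29.A8.M19e
import Pool.Agent.Helper50.A8.M22
import Pool.Agent.Helper50.A8.M23
import Pool.Agent.Helper40.A8.M24
import Pool.Agent.Helper50.A8.G01
import Pool.Agent.Helper99.A8.G02
import Pool.Agent.Helper97.A8.FROB
import Pool.Agent.Helper10.A8.G04
import Pool.Agent.Helper10.A8.G05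
import Pool.Agent.Helper10.A8.G06
import Pool.Agent.Helper11.A8.COV
import Pool.Agent.Helper46.A8.G08
import Pool.Agent.Helper11.A8.TB
import Pool.Agent.Helper97.A8.INV
import Pool.Agent.Helper7.A8.CV
import Pool.Agent.Helper1.A8.G13
import Pool.Agent.Helper1.A8.G14
import Pool.Agent.Helper50.A8.G15
import Pool.Agent.Helper43.A8.G16
import Pool.Agent.Helper7.A8.MTG
import Pool.Agent.Helper43.A8.G18
import Pool.Agent.Helper9.A8.G20
import Pool.Agent.Helper93.A8.G22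
import Pool.Agent.Helper5.A8.G23
import Pool.Agent.Helper5.A8.G24
import Pool.Agent.Helper43.A8.G25
import Pool.Agent.Helper25.A8.G26
import Pool.Agent.Helper28.A8.G27
import Pool.Agent.Helper28.A8.G28
import Pool.Agent.Helper5.A8.G29
import Pool.Agent.Helper77.A8.G30
import Pool.Agent.Helper77.A8.G31
import Pool.Agent.Helper47.A8.STD2
import Pool.Agent.Helper26.A8.G19
import Pool.Agent.Helper68.A8.M15
import Pool.Agent.Helper21.A8.M08
import Pool.Agent.Helper48.A8.M12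
import Pool.Agent.Helper48.A8.M14
import Pool.Agent.Helper44.A8.Hecke
import Pool.Agent.Helper33.A8.TA

/-!
# Assembly of the blocks
-/

set_option autoImplicit false

namespace Pool.Agent.A8

theorem main_of (h3AP : S_3AP) (h3AQ : S_3AQ) : S_MAIN := by
  have hHECKE : S_HECKE := bHECKE
  have hTRI : S_TRI := bTRI hHECKE bHV000 bHV101 bHV111
  have hM3 : S_M3 := bM3 bSIM bEND bCOCV
  have hM4 : S_M4 := bM4 bEND bCOCL
  have hM6 : S_M6 := bM6 hM4 bSIM bEND bHV010 bCOCV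
  have hSIM : S_SIM := bSIM
  have hF15 : S_F15 := bF15
  have hEND : S_END := bEND
  have hPERF : S_PERF := bPERF
  have hGG : S_GG := bGG hPERF
  have hNH : S_NH := bNH hHECKE bHV000 bHV101 bHV111
  have hBAD : S_BAD := bBAD hHECKE bHV000 bHV101 bHV111 bHV100 bHV010 bHV001 hTRI hSIM
  have hUNIV : S_UNIV := bUNIV hBAD hGG hSIM
  have hUC : S_UC := bUC hGG hSIM hEND hPERF
  have hUC' : S_UC' := bUC' hUC
  have hM3E : S_M3E := bM3E hM3 hSIM
  have hM3C : S_M3C := bM3C hM3E hSIM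
  have hU23 : S_U23 := bU23 hUNIV hUC hGG hM3 hM4 hSIM hEND hF15
  have hL2M : S_L2M := bL2M
  have hMTH : S_MTH := bMTH hUNIV hUC hUC' hSIM hEND
  have hMTA : S_MTA := bMTA hUNIV hUC hUC' hGG hM3 hM4 hSIM hEND hF15
  have hMTB : S_MTB := bMTB hUNIV hUC hGG hU23 hSIM hEND
  have hMTD : S_MTD := bMTD hM3E hM6 hSIM hEND
  have hMTL : S_MTL := bMTL hUNIV hUC hUC' hGG hM3E hSIM hEND
  have hMT : S_MT := bMT hMTA hMTB hMTD hMTL hMTH hSIM hEND
  have hCOP : S_COP := bCOP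
  have hLIFT : S_LIFT := bLIFT
  have hLIFTC : S_LIFTC := bLIFTC hLIFT
  have hFROB : S_FROB := bFROB hCOP hLIFT
  have hFRAME : S_FRAME := bFRAME hLIFTC hCOP
  have hQM : S_QM := bQM hCOP hLIFT
  have hSIMQ : S_SIMQ := bSIMQ hQM
  have hPAIR : S_PAIR := bPAIR hCOP hLIFT hQM
  have hSTD2 : S_STD2 := bSTD2 hPAIR hUC
  have hTYPES : S_TYPES := bTYPES hSIMQ hPAIR hUNIV hUC hSIM
  have hCOV : S_COV := bCOV hTYPES
  have hDEC : S_DEC := bDEC hCOV
  have hUQ : S_UQ := bUQ hEND hSIM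
  have hUQK : S_UQK := bUQK hUQ
  have hTB : S_TB := bTB hSIMQ hPAIR hUNIV
  have hINV : S_INV := bINV hCOP hLIFT
  have hZEL : S_ZEL := bZEL hSIMQ hNH
  have hABEL : S_ABEL := bABEL hCOV hINV hZEL
  have hCV : S_CV := bCV hCOV hTB hSTD2 hUQ hPAIR hL2M hEND hSIM
  have hHA : S_HA := bHA hCOV hSTD2 hUQK
  have hAD : S_AD := bAD hHA hCOV hTB hSIM
  have hLL : S_LL := bLL hCOV hTB hSTD2 hUQK
  have hJ : S_J := bJ hCOV hTB hSTD2 hUQK hSIM
  have hAL : S_AL := bAL hCOV hTB hSTD2 hUQK hHA hCV hAD hLL hPERF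
  have hDUALG : S_DUALG := bDUALG
  have hSTR : S_STR := bSTR hDEC hCV hAD hLL hAL hJ hDUALG hABEL hZEL
  have hMTG : S_MTG := bMTG hSTR hPAIR hQM hMT hCOV
  have hL7 : S_L7 := bL7 hSTR hMTG hCOV hQM hM3C hINV hABEL
  have hC3A : S_C3A := bC3A h3AP h3AQ hSTR hL7 hMTG hPAIR hQM hCOV hCOP hINV hDUALG hM3C hSIM
  have hUL : S_UL := bUL hCOP
  have hVI : S_VI := bVI hCOP bCOCL bCOCV
  have hBETA : S_BETA := bBETA hVI hUL hFROB hCOP
  have hQE : S_QE := bQE hSTR hMTG hL7 hINV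
  have hVIG : S_VIG := bVIG hQE hVI hUL
  have hBETAG : S_BETAG := bBETAG hQE hBETA
  have hTHA : S_THA := bTHA hSTR hL7 hMTG hBETAG hSTD2 hCOP hUQ
  have hG2 : S_G2 := bG2 hSTR hL7 hMTG hCOP hFROB
  have hC0 : S_C0 := bC0 hSTR hL7 hMTG hVIG hTHA hCOP
  have hC : S_C := bC hC0 hTHA hG2 hC3A hL7 hSTR hCOP hFROB
  have hPDEC : S_PDEC := bPDEC hDEC hCOV hCOP hSTR hQM hINV
  have hC3B : S_C3B := bC3B bCGS hLIFTC hFRAME hPDEC hC hDUALG hC3A hSTR hL7
  exact bMAIN bO3 bCGA hC3A hC3B hLIFT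

theorem main : S_MAIN := main_of b3AP b3AQ

end Pool.Agent.A8
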