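import Mathlib

/-!
# `F_2 GL_4(2)`-modules and groups `2^*.A_8` : definitions

Project MP_93c1ff (Aut(J_2)): no element of order 24 in an extension of a 2-group by `A_8 = GL_4(2)`
without elements of order 16, 20, 28, 30.
-/

set_option autoImplicit false

namespace Pool.Agent.A8

open Matrix

universe u

/-- the group `GL_4(2)` -/
abbrev Gam : Type := GL (Fin 4) (ZMod 2)

/-- the group algebra `F_2 GL_4(2)` -/
abbrev RG : Type := MonoidAlgebra (ZMod 2) Gam

section act
variable {X Y : Type*} [AddCommGroup X] [Module RG X] [AddCommGroup Y] [Module RG Y]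

/-- the action of a group element on an `RG`-module -/
noncomputable def act (g : Gam) (x : X) : X := (MonoidAlgebra.of (ZMod 2) Gam g : RG) • x

theorem act_add (g : Gam) (x y : X) : act g (x + y) = act g x + act g y := smul_add _ _ _
@[simp] theorem act_zero (g : Gam) : act g (0 : X) = 0 := smul_zero _
@[simp] theorem act_one (x : X) : act 1 x = x := by
  rw [act, map_one, one_smul]
theorem act_mul (g h : Gam) (x : X) : act (g * h) x = act g (act h x) := by
  simp only [act, map_mul, mul_smul]
theorem act_neg (g : Gam) (x : X) : act g (-x) = -act g x := smul_neg _ _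
theorem act_sub (g : Gam) (x y : X) : act g (x - y) = act g x - act g y := smul_sub _ _ _
theorem act_sum {ι : Type*} (s : Finset ι) (f : ι → X) (g : Gam) :
    act g (∑ i ∈ s, f i) = ∑ i ∈ s, act g (f i) := Finset.smul_sum
@[simp] theorem act_inv_act (g : Gam) (x : X) : act g⁻¹ (act g x) = x := by
  rw [← act_mul]; simp
@[simp] theorem act_act_inv (g : Gam) (x : X) : act g (act g⁻¹ x) = x := by
  rw [← act_mul]; simp
theorem act_inj (g : Gam) {x y : X} (h : act g x = act g y) : x = y := by
  rw [← act_inv_act g x, h, act_inv_act]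

theorem two_eq_zero_RG : (2 : RG) = 0 := by
  have h : (algebraMap (ZMod 2) RG) 2 = 2 := map_ofNat _ 2
  rw [← h, show (2 : ZMod 2) = 0 from by decide, map_zero]

include X in
theorem add_self (x : X) : x + x = 0 := by
  rw [← two_smul RG x, two_eq_zero_RG, zero_smul]

theorem neg_eq (x : X) : -x = x := by
  rw [neg_eq_iff_add_eq_zero, add_self]

theorem sub_eq_add' (x y : X) : x - y = x + y := by
  rw [sub_eq_add_neg, neg_eq]

@[simp] theorem map_act (f : X →ₗ[RG] Y) (g : Gam) (x : X) : f (act g x) = act g (f x) :=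
  f.map_smul _ _

/-- an additive map commuting with the action is `RG`-linear -/
noncomputable def mkLin (f : X →+ Y) (hf : ∀ g x, f (act g x) = act g (f x)) : X →ₗ[RG] Y :=
  { f with
    map_smul' := by
      intro r x
      change f (r • x) = r • f x
      induction r using MonoidAlgebra.induction_on with
      | of g => exact hf g x
      | add a b ha hb => rw [add_smul, add_smul, map_add, ha, hb]
      | smul c a ha =>
        have hc : c = 0 ∨ c = 1 := by revert c; decide
        rcases hc with rfl | rfl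
        · simp
        · simpa using ha }

@[simp] theorem mkLin_apply (f : X →+ Y) (hf : ∀ g x, f (act g x) = act g (f x)) (x : X) :
    mkLin f hf x = f x := rfl

/-- an additive subgroup stable under the action is a submodule -/
def mkSub (S : AddSubgroup X) (hS : ∀ g, ∀ x ∈ S, act g x ∈ S) : Submodule RG X :=
  { S with
    smul_mem' := by
      intro r x hx
      change x ∈ S at hx
      change r • x ∈ S
      induction r using MonoidAlgebra.induction_on with
      | of g => exact hS g x hx
      | add a b ha hb => rw [add_smul]; exact S.add_mem ha hb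
      | smul c a ha =>
        have hc : c = 0 ∨ c = 1 := by revert c; decide
        rcases hc with rfl | rfl
        · simp [S.zero_mem]
        · simpa using ha }

@[simp] theorem mem_mkSub (S : AddSubgroup X) (hS : ∀ g, ∀ x ∈ S, act g x ∈ S) (x : X) :
    x ∈ mkSub S hS ↔ x ∈ S := Iff.rfl

theorem act_mem {N : Submodule RG X} (g : Gam) {x : X} (hx : x ∈ N) : act g x ∈ N :=
  N.smul_mem _ hx

theorem act_coe (N : Submodule RG X) (g : Gam) (x : N) : ((act g x : N) : X) = act g (x : X) := rfl

theorem act_mk (N : Submodule RG X) (g : Gam) (x : X) :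
    act g (Submodule.Quotient.mk x : X ⧸ N) = Submodule.Quotient.mk (act g x) := rfl

end act

/-! ### raw multilinear algebra over `F_2` in dimension 4 -/

/-- column vectors -/
abbrev V4 : Type := Fin 4 → ZMod 2
/-- Pluecker coordinates `01, 02, 03, 12, 13, 23` -/
abbrev V6 : Type := Fin 6 → ZMod 2
/-- matrices -/
abbrev M4 : Type := Matrix (Fin 4) (Fin 4) (ZMod 2)

/-- the alternating matrix of an element of `V6` -/
def toMat (l : V6) : M4 :=
  !![0, l 0, l 1, l 2; l 0, 0, l 3, l 4; l 1, l 3, 0, l 5; l 2, l 4, l 5, 0]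

/-- read off the coordinates of an alternating matrix -/
def ofMat (M : M4) : V6 := ![M 0 1, M 0 2, M 0 3, M 1 2, M 1 3, M 2 3]

/-- the Hodge star -/
def hs (l : V6) : V6 := ![l 5, l 4, l 3, l 2, l 1, l 0]

/-- `v ∧ w` -/
def wdg (v w : V4) : V6 :=
  ![v 0 * w 1 + v 1 * w 0, v 0 * w 2 + v 2 * w 0, v 0 * w 3 + v 3 * w 0,
    v 1 * w 2 + v 2 * w 1, v 1 * w 3 + v 3 * w 1, v 2 * w 3 + v 3 * w 2]

/-- `ξ ∧ η` for functionals (the star of the bivector) -/
def wdgD (x y : V4) : V6 := hs (wdg x y)

/-- contraction of (the star of) `l` with a vector; the value is a functional -/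
def lv (l : V6) (v : V4) : V4 := toMat (hs l) *ᵥ v

/-- contraction of `l` with a functional; the value is a vector -/
def ld (l : V6) (x : V4) : V4 := toMat l *ᵥ x

/-- evaluation of a functional -/
def ev (x v : V4) : ZMod 2 := x ⬝ᵥ v

/-- the quadratic form (Pfaffian) -/
def pf (l : V6) : ZMod 2 := l 0 * l 5 + l 1 * l 4 + l 2 * l 3

/-- its polar form -/
def pol (l m : V6) : ZMod 2 :=
  l 0 * m 5 + l 5 * m 0 + l 1 * m 4 + l 4 * m 1 + l 2 * m 3 + l 3 * m 2

theorem toMat_ofMat {M : M4} (h1 : Mᵀ = M) (h2 : ∀ i, M i i = 0) : toMat (ofMat M) = M := by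
  have h : ∀ i j, M j i = M i j := fun i j => congrFun (congrFun h1 i) j
  have h01 := h 0 1
  have h02 := h 0 2
  have h03 := h 0 3
  have h12 := h 1 2
  have h13 := h 1 3
  have h23 := h 2 3
  ext i j
  fin_cases i <;> fin_cases j <;> simp [toMat, ofMat, h2, h01, h02, h03, h12, h13, h23]

@[simp] theorem ofMat_toMat (l : V6) : ofMat (toMat l) = l := by
  funext i
  fin_cases i <;> simp [toMat, ofMat]

theorem toMat_injective : Function.Injective toMat := fun a b h => by
  rw [← ofMat_toMat a, h, ofMat_toMat]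

theorem toMat_transpose (l : V6) : (toMat l)ᵀ = toMat l := by
  ext i j
  fin_cases i <;> fin_cases j <;> simp [toMat]

theorem toMat_diag (l : V6) (i : Fin 4) : toMat l i i = 0 := by
  fin_cases i <;> simp [toMat]

theorem toMat_add (l m : V6) : toMat (l + m) = toMat l + toMat m := by
  ext i j
  fin_cases i <;> fin_cases j <;> simp [toMat]

theorem ofMat_add (A B : M4) : ofMat (A + B) = ofMat A + ofMat B := by
  funext i
  fin_cases i <;> rfl

@[simp] theorem hs_hs (l : V6) : hs (hs l) = l := by
  funext i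
  fin_cases i <;> rfl

theorem hs_add (l m : V6) : hs (l + m) = hs l + hs m := by
  funext i
  fin_cases i <;> rfl

theorem conj_diag (A : M4) (l : V6) (i : Fin 4) : (A * toMat l * Aᵀ) i i = 0 := by
  have h2 : (2 : ZMod 2) = 0 := by decide
  simp only [Matrix.mul_apply, Fin.sum_univ_four, Matrix.transpose_apply, toMat]
  simp
  ring_nf
  simp [h2]

theorem conj_transpose (A : M4) (l : V6) : (A * toMat l * Aᵀ)ᵀ = A * toMat l * Aᵀ := by
  rw [Matrix.transpose_mul, Matrix.transpose_mul, Matrix.transpose_transpose, toMat_transpose,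
    Matrix.mul_assoc]

theorem toMat_ofMat_conj (A : M4) (l : V6) :
    toMat (ofMat (A * toMat l * Aᵀ)) = A * toMat l * Aᵀ :=
  toMat_ofMat (conj_transpose A l) (conj_diag A l)

/-- the action of a matrix on `V6` -/
def actL (A : M4) (l : V6) : V6 := ofMat (A * toMat l * Aᵀ)

theorem toMat_actL (A : M4) (l : V6) : toMat (actL A l) = A * toMat l * Aᵀ :=
  toMat_ofMat_conj A l

theorem actL_mul (A B : M4) (l : V6) : actL (A * B) l = actL A (actL B l) := by
  rw [actL, actL, toMat_actL, Matrix.transpose_mul]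
  simp only [Matrix.mul_assoc]

theorem actL_one (l : V6) : actL 1 l = l := by simp [actL]

theorem actL_add (A : M4) (l m : V6) : actL A (l + m) = actL A l + actL A m := by
  simp only [actL, toMat_add, Matrix.mul_add, Matrix.add_mul, ofMat_add]

theorem wdg_eq (v w : V4) : wdg v w = ofMat (vecMulVec v w + vecMulVec w v) := by
  funext i
  fin_cases i <;> simp [wdg, ofMat, vecMulVec_apply, mul_comm]

theorem toMat_wdg (v w : V4) : toMat (wdg v w) = vecMulVec v w + vecMulVec w v := by
  rw [wdg_eq]
  apply toMat_ofMat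
  · rw [Matrix.transpose_add, Matrix.transpose_vecMulVec, Matrix.transpose_vecMulVec, add_comm]
  · intro i
    have h2 : (2 : ZMod 2) = 0 := by decide
    simp only [Matrix.add_apply, vecMulVec_apply]
    ring_nf
    simp [h2]

theorem actL_wdg (A : M4) (v w : V4) : actL A (wdg v w) = wdg (A *ᵥ v) (A *ᵥ w) := by
  rw [actL, toMat_wdg, wdg_eq]
  congr 1
  rw [Matrix.mul_add, Matrix.add_mul, Matrix.mul_vecMulVec, Matrix.mul_vecMulVec,
    Matrix.vecMulVec_mul, Matrix.vecMulVec_mul, Matrix.vecMul_transpose, Matrix.vecMul_transpose]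

theorem wdg_add_left (v v' w : V4) : wdg (v + v') w = wdg v w + wdg v' w := by
  funext i
  fin_cases i <;> simp [wdg] <;> ring

theorem wdg_add_right (v w w' : V4) : wdg v (w + w') = wdg v w + wdg v w' := by
  funext i
  fin_cases i <;> simp [wdg] <;> ring

theorem wdg_self (v : V4) : wdg v v = 0 := by
  have h2 : ∀ a b : ZMod 2, a * b + b * a = 0 := by decide
  funext i
  fin_cases i <;> simp [wdg, h2]

theorem wdg_comm (v w : V4) : wdg v w = wdg w v := by
  funext i
  fin_cases i <;> simp [wdg] <;> ring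

theorem zadd (a : ZMod 2) : a + a = 0 := by revert a; decide

theorem zneg (a : ZMod 2) : -a = a := by revert a; decide

theorem mul_star (l : V6) : toMat l * toMat (hs l) = pf l • (1 : M4) := by
  have two0 : (2 : ZMod 2) = 0 := by decide
  ext i j
  fin_cases i <;> fin_cases j <;>
    simp [toMat, hs, pf, Matrix.mul_apply, Fin.sum_univ_four] <;> ring_nf <;> simp [two0]

set_option maxRecDepth 10000 in
theorem span_ns : ∀ l : V6, ∃ n : V6, pf n = 1 ∧ pf (l + n) = 1 := by
  decide +kernel

theorem toMat_zero : toMat 0 = 0 := by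
  ext i j
  fin_cases i <;> fin_cases j <;> simp [toMat]

theorem hs_zero : hs 0 = 0 := by
  funext i
  fin_cases i <;> rfl

/-- the star of `g M gᵀ` is `g⁻ᵀ star(M) g⁻¹` -/
theorem hs_actL (A B : M4) (hAB : A * B = 1) (l : V6) : hs (actL A l) = actL Bᵀ (hs l) := by
  have hBA : B * A = 1 := mul_eq_one_comm.1 hAB
  have key : ∀ n : V6, pf n = 1 → hs (actL A n) = actL Bᵀ (hs n) := by
    intro n hn
    apply toMat_injective
    rw [toMat_actL, Matrix.transpose_transpose]
    have h1 : toMat n * toMat (hs n) = 1 := by rw [mul_star, hn, one_smul]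
    have h1' : toMat (hs n) * toMat n = 1 := mul_eq_one_comm.1 h1
    have hT : Aᵀ * Bᵀ = 1 := by rw [← Matrix.transpose_mul, hBA, Matrix.transpose_one]
    -- inverse of `A M Aᵀ`
    have h2 : (Bᵀ * toMat (hs n) * B) * toMat (actL A n) = 1 := by
      rw [toMat_actL]
      calc Bᵀ * toMat (hs n) * B * (A * toMat n * Aᵀ)
          = Bᵀ * (toMat (hs n) * (B * A) * toMat n) * Aᵀ := by simp only [Matrix.mul_assoc]
        _ = Bᵀ * Aᵀ := by rw [hBA, Matrix.mul_one, h1', Matrix.mul_one]
        _ = 1 := mul_eq_one_comm.1 hT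
    have h3 : toMat (actL A n) * toMat (hs (actL A n)) = pf (actL A n) • (1 : M4) := mul_star _
    have h4 : toMat (hs (actL A n)) = pf (actL A n) • (Bᵀ * toMat (hs n) * B) := by
      calc toMat (hs (actL A n)) = (Bᵀ * toMat (hs n) * B) * toMat (actL A n) *
            toMat (hs (actL A n)) := by rw [h2, Matrix.one_mul]
        _ = (Bᵀ * toMat (hs n) * B) * (pf (actL A n) • (1 : M4)) := by
            rw [Matrix.mul_assoc, h3]
        _ = _ := by rw [Matrix.mul_smul, Matrix.mul_one]
    have h5 : pf (actL A n) = 0 ∨ pf (actL A n) = 1 := by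
      generalize pf (actL A n) = c
      revert c; decide
    rcases h5 with h5 | h5
    · exfalso
      rw [h5, zero_smul, ← toMat_zero] at h4
      have h6 : hs (actL A n) = 0 := toMat_injective h4
      have h7 : actL A n = 0 := by rw [← hs_hs (actL A n), h6, hs_zero]
      rw [h7, toMat_zero, Matrix.mul_zero] at h2
      exact absurd (congrFun (congrFun h2 0) 0) (by decide)
    · rw [h4, h5, one_smul]
  obtain ⟨n, hn1, hn2⟩ := span_ns l
  have h := key _ hn2
  rw [actL_add, hs_add, hs_add, actL_add, key n hn1] at h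
  exact add_right_cancel h

theorem lv_act (A B : M4) (hAB : A * B = 1) (l : V6) (v : V4) :
    lv (actL A l) (A *ᵥ v) = Bᵀ *ᵥ lv l v := by
  have hBA : B * A = 1 := mul_eq_one_comm.1 hAB
  rw [lv, hs_actL A B hAB, toMat_actL, Matrix.transpose_transpose, lv, Matrix.mulVec_mulVec,
    Matrix.mulVec_mulVec, Matrix.mul_assoc _ B A, hBA, Matrix.mul_one]

theorem ld_act (A B : M4) (hAB : A * B = 1) (l : V6) (x : V4) :
    ld (actL A l) (Bᵀ *ᵥ x) = A *ᵥ ld l x := by
  have hBA : B * A = 1 := mul_eq_one_comm.1 hAB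
  have hT : Aᵀ * Bᵀ = 1 := by rw [← Matrix.transpose_mul, hBA, Matrix.transpose_one]
  rw [ld, toMat_actL, ld, Matrix.mulVec_mulVec, Matrix.mulVec_mulVec, Matrix.mul_assoc _ Aᵀ Bᵀ, hT,
    Matrix.mul_one]

theorem wdgD_act (A B : M4) (hAB : A * B = 1) (x y : V4) :
    wdgD (Bᵀ *ᵥ x) (Bᵀ *ᵥ y) = actL A (wdgD x y) := by
  have h := hs_actL A B hAB (wdgD x y)
  rw [wdgD, ← actL_wdg, wdgD]
  rw [wdgD, hs_hs] at h
  rw [← h, hs_hs]

theorem lv_add_left (l m : V6) (v : V4) : lv (l + m) v = lv l v + lv m v := by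
  rw [lv, hs_add, toMat_add, Matrix.add_mulVec]; rfl

theorem lv_add_right (l : V6) (v w : V4) : lv l (v + w) = lv l v + lv l w :=
  Matrix.mulVec_add _ _ _

theorem ld_add_left (l m : V6) (v : V4) : ld (l + m) v = ld l v + ld m v := by
  rw [ld, toMat_add, Matrix.add_mulVec]; rfl

theorem ld_add_right (l : V6) (v w : V4) : ld l (v + w) = ld l v + ld l w :=
  Matrix.mulVec_add _ _ _

theorem wdgD_add_left (v v' w : V4) : wdgD (v + v') w = wdgD v w + wdgD v' w := by
  rw [wdgD, wdg_add_left, hs_add]; rfl

theorem wdgD_add_right (v w w' : V4) : wdgD v (w + w') = wdgD v w + wdgD v w' := by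
  rw [wdgD, wdg_add_right, hs_add]; rfl

theorem ev_act (A B : M4) (hAB : A * B = 1) (x v : V4) : ev (Bᵀ *ᵥ x) (A *ᵥ v) = ev x v := by
  have hBA : B * A = 1 := mul_eq_one_comm.1 hAB
  rw [ev, ev, Matrix.mulVec_transpose, ← Matrix.dotProduct_mulVec, Matrix.mulVec_mulVec, hBA,
    Matrix.one_mulVec]

theorem two0 : (2 : ZMod 2) = 0 := by decide

theorem lv_wdg_self (v w : V4) : lv (wdg v w) v = 0 := by
  funext i
  fin_cases i <;> simp [lv, wdg, hs, toMat, Matrix.mulVec, dotProduct, Fin.sum_univ_four] <;>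
    ring_nf <;> simp [two0]

theorem ld_wdg (v w x : V4) : ld (wdg v w) x = ev x w • v + ev x v • w := by
  funext i
  fin_cases i <;>
    simp [ld, wdg, toMat, Matrix.mulVec, dotProduct, Fin.sum_univ_four, ev]
  · linear_combination (-(x 0 * v 0 * w 0)) * two0
  · linear_combination (-(x 1 * v 1 * w 1)) * two0
  · linear_combination (-(x 2 * v 2 * w 2)) * two0
  · linear_combination (-(x 3 * v 3 * w 3)) * two0

theorem lv_wdgD (x y v : V4) : lv (wdgD x y) v = ev y v • x + ev x v • y := by
  have h := ld_wdg x y v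
  rw [lv, wdgD, hs_hs]
  have e : ∀ a b : V4, ev a b = ev b a := fun a b => dotProduct_comm a b
  rw [e y v, e x v]
  exact h

theorem ld_wdgD_self (x y : V4) : ld (wdgD x y) x = 0 := lv_wdg_self x y

theorem ev_lv_self (l : V6) (v : V4) : ev (lv l v) v = 0 := by
  simp [ev, lv, hs, toMat, Matrix.mulVec, dotProduct, Fin.sum_univ_four]
  ring_nf
  simp [two0]

theorem ev_ld_self (l : V6) (x : V4) : ev x (ld l x) = 0 := by
  simp [ev, ld, toMat, Matrix.mulVec, dotProduct, Fin.sum_univ_four]
  ring_nf
  simp [two0]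

/-- the Clifford identity -/
theorem clifford (l m : V6) (v : V4) : ld l (lv m v) + ld m (lv l v) = pol l m • v := by
  have h := mul_star (l + m)
  rw [toMat_add, hs_add, toMat_add, Matrix.add_mul, Matrix.mul_add, Matrix.mul_add, mul_star,
    mul_star] at h
  have h' : toMat l * toMat (hs m) + toMat m * toMat (hs l) = pol l m • (1 : M4) := by
    have e : pf (l + m) = pf l + pf m + pol l m := by
      simp only [pf, pol, Pi.add_apply]; ring
    calc toMat l * toMat (hs m) + toMat m * toMat (hs l)
        = ((pf l • (1 : M4) + toMat l * toMat (hs m)) +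
            (toMat m * toMat (hs l) + pf m • (1 : M4))) - pf l • (1 : M4) - pf m • (1 : M4) := by
          abel
      _ = pol l m • (1 : M4) := by
          rw [h, e, add_smul, add_smul]
          abel
  rw [ld, lv, ld, lv, Matrix.mulVec_mulVec, Matrix.mulVec_mulVec, ← Matrix.add_mulVec, h',
    Matrix.smul_mulVec, Matrix.one_mulVec]

/-! ### the three small modules -/

/-- the natural module `V` (type 4) -/
def MV : Type := Fin 4 → ZMod 2
/-- the dual module `V*` (type 4*) -/
def MD : Type := Fin 4 → ZMod 2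
/-- the exterior square (type 6) -/
def ML : Type := Fin 6 → ZMod 2

instance : AddCommGroup MV := inferInstanceAs (AddCommGroup (Fin 4 → ZMod 2))
instance : AddCommGroup MD := inferInstanceAs (AddCommGroup (Fin 4 → ZMod 2))
instance : AddCommGroup ML := inferInstanceAs (AddCommGroup (Fin 6 → ZMod 2))
instance : Module (ZMod 2) MV := inferInstanceAs (Module (ZMod 2) (Fin 4 → ZMod 2))
instance : Module (ZMod 2) MD := inferInstanceAs (Module (ZMod 2) (Fin 4 → ZMod 2))
instance : Module (ZMod 2) ML := inferInstanceAs (Module (ZMod 2) (Fin 6 → ZMod 2))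
instance : DecidableEq MV := inferInstanceAs (DecidableEq (Fin 4 → ZMod 2))
instance : DecidableEq MD := inferInstanceAs (DecidableEq (Fin 4 → ZMod 2))
instance : DecidableEq ML := inferInstanceAs (DecidableEq (Fin 6 → ZMod 2))
instance : Fintype MV := inferInstanceAs (Fintype (Fin 4 → ZMod 2))
instance : Fintype MD := inferInstanceAs (Fintype (Fin 4 → ZMod 2))
instance : Fintype ML := inferInstanceAs (Fintype (Fin 6 → ZMod 2))

/-- a `ZMod 2`-linear endomorphism from an additive map -/
def endOf {M : Type*} [AddCommGroup M] [Module (ZMod 2) M] (f : M → M)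
    (hf : ∀ x y, f (x + y) = f x + f y) : Module.End (ZMod 2) M :=
  (AddMonoidHom.mk' f hf).toZModLinearMap 2

@[simp] theorem endOf_apply {M : Type*} [AddCommGroup M] [Module (ZMod 2) M] (f : M → M)
    (hf : ∀ x y, f (x + y) = f x + f y) (x : M) : endOf f hf x = f x := rfl

/-- the natural representation -/
def repV : Gam →* Module.End (ZMod 2) MV where
  toFun g := endOf (fun v => g.1 *ᵥ v) (fun x y => Matrix.mulVec_add _ _ _)
  map_one' := by
    ext v : 1
    exact Matrix.one_mulVec v
  map_mul' g h := by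
    ext v : 1
    exact (Matrix.mulVec_mulVec v g.1 h.1).symm

/-- the dual representation -/
def repD : Gam →* Module.End (ZMod 2) MD where
  toFun g := endOf (fun v => (g⁻¹).1ᵀ *ᵥ v) (fun x y => Matrix.mulVec_add _ _ _)
  map_one' := by
    ext v : 1
    change ((1 : Gam)⁻¹).1ᵀ *ᵥ v = v
    rw [inv_one, Units.val_one, Matrix.transpose_one]
    exact Matrix.one_mulVec v
  map_mul' g h := by
    ext v : 1
    have e : ((g * h)⁻¹).1ᵀ = (g⁻¹).1ᵀ * (h⁻¹).1ᵀ := by
      rw [_root_.mul_inv_rev, ← Matrix.transpose_mul]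
      rfl
    exact (congrArg (fun A => A *ᵥ (v : Fin 4 → ZMod 2)) e).trans
      (Matrix.mulVec_mulVec (v : Fin 4 → ZMod 2) (g⁻¹).1ᵀ (h⁻¹).1ᵀ).symm

/-- the representation on the exterior square -/
def repL : Gam →* Module.End (ZMod 2) ML where
  toFun g := endOf (fun l => actL g.1 l) (actL_add _)
  map_one' := by
    ext v : 1
    exact actL_one v
  map_mul' g h := by
    ext v : 1
    exact actL_mul g.1 h.1 v

noncomputable instance : Module RG MV :=
  Module.compHom MV (MonoidAlgebra.lift (ZMod 2) (Module.End (ZMod 2) MV) Gam repV).toRingHom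
noncomputable instance : Module RG MD :=
  Module.compHom MD (MonoidAlgebra.lift (ZMod 2) (Module.End (ZMod 2) MD) Gam repD).toRingHom
noncomputable instance : Module RG ML :=
  Module.compHom ML (MonoidAlgebra.lift (ZMod 2) (Module.End (ZMod 2) ML) Gam repL).toRingHom

theorem act_MV (g : Gam) (v : MV) : act g v = (g.1 *ᵥ v : Fin 4 → ZMod 2) := by
  change (MonoidAlgebra.lift (ZMod 2) (Module.End (ZMod 2) MV) Gam repV)
    (MonoidAlgebra.of (ZMod 2) Gam g) v = _
  rw [MonoidAlgebra.lift_of]
  rfl

theorem act_MD (g : Gam) (v : MD) : act g v = ((g⁻¹).1ᵀ *ᵥ v : Fin 4 → ZMod 2) := by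
  change (MonoidAlgebra.lift (ZMod 2) (Module.End (ZMod 2) MD) Gam repD)
    (MonoidAlgebra.of (ZMod 2) Gam g) v = _
  rw [MonoidAlgebra.lift_of]
  rfl

theorem act_ML (g : Gam) (l : ML) : act g l = actL g.1 l := by
  change (MonoidAlgebra.lift (ZMod 2) (Module.End (ZMod 2) ML) Gam repL)
    (MonoidAlgebra.of (ZMod 2) Gam g) l = _
  rw [MonoidAlgebra.lift_of]
  rfl

theorem gam_mul_inv (g : Gam) : g.1 * (g⁻¹).1 = 1 := by
  rw [← Units.val_mul, mul_inv_cancel, Units.val_one]

/-! the standard pairings, with their types -/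
/-- `V × V → L` -/
def mvv (v w : MV) : ML := wdg v w
/-- `V* × V* → L` -/
def mdd (x y : MD) : ML := wdgD x y
/-- `V × L → V*` -/
def mvl (v : MV) (l : ML) : MD := lv l v
/-- `L × V → V*` -/
def mlv (l : ML) (v : MV) : MD := lv l v
/-- `V* × L → V` -/
def mdl (x : MD) (l : ML) : MV := ld l x
/-- `L × V* → V` -/
def mld (l : ML) (x : MD) : MV := ld l x

theorem mvv_act (g : Gam) (v w : MV) : mvv (act g v) (act g w) = act g (mvv v w) := by
  rw [act_MV, act_MV, act_ML]
  exact (actL_wdg g.1 v w).symm

theorem mdd_act (g : Gam) (v w : MD) : mdd (act g v) (act g w) = act g (mdd v w) := by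
  rw [act_MD, act_MD, act_ML]
  exact wdgD_act g.1 (g⁻¹).1 (gam_mul_inv g) v w

theorem mvl_act (g : Gam) (v : MV) (l : ML) : mvl (act g v) (act g l) = act g (mvl v l) := by
  rw [act_MV, act_ML, act_MD]
  exact lv_act g.1 (g⁻¹).1 (gam_mul_inv g) l v

theorem mlv_act (g : Gam) (l : ML) (v : MV) : mlv (act g l) (act g v) = act g (mlv l v) :=
  mvl_act g v l

theorem mdl_act (g : Gam) (x : MD) (l : ML) : mdl (act g x) (act g l) = act g (mdl x l) := by
  rw [act_MV, act_ML, act_MD]
  exact ld_act g.1 (g⁻¹).1 (gam_mul_inv g) l x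

theorem mld_act (g : Gam) (l : ML) (x : MD) : mld (act g l) (act g x) = act g (mld l x) :=
  mdl_act g x l

/-- evaluation, typed -/
def evM (x : MD) (v : MV) : ZMod 2 := ev x v

theorem evM_act (g : Gam) (x : MD) (v : MV) : evM (act g x) (act g v) = evM x v := by
  rw [act_MV, act_MD]
  exact ev_act g.1 (g⁻¹).1 (gam_mul_inv g) x v

/-- the three types -/
inductive Ty : Type
  | v
  | d
  | l
  deriving DecidableEq

/-- the module of a type -/
@[reducible] def Md : Ty → Type
  | .v => MV
  | .d => MD
  | .l => ML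

instance instACGMd : (a : Ty) → AddCommGroup (Md a)
  | .v => inferInstanceAs (AddCommGroup MV)
  | .d => inferInstanceAs (AddCommGroup MD)
  | .l => inferInstanceAs (AddCommGroup ML)

noncomputable instance instRGMd : (a : Ty) → Module RG (Md a)
  | .v => inferInstanceAs (Module RG MV)
  | .d => inferInstanceAs (Module RG MD)
  | .l => inferInstanceAs (Module RG ML)

instance instDecMd : (a : Ty) → DecidableEq (Md a)
  | .v => inferInstanceAs (DecidableEq MV)
  | .d => inferInstanceAs (DecidableEq MD)
  | .l => inferInstanceAs (DecidableEq ML)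

instance instFinMd : (a : Ty) → Fintype (Md a)
  | .v => inferInstanceAs (Fintype MV)
  | .d => inferInstanceAs (Fintype MD)
  | .l => inferInstanceAs (Fintype ML)

/-- the six standard pairings -/
inductive Std3 : (a b c : Ty) → (Md a → Md b → Md c) → Prop
  | vv : Std3 .v .v .l mvv
  | dd : Std3 .d .d .l mdd
  | vl : Std3 .v .l .d mvl
  | lv : Std3 .l .v .d mlv
  | dl : Std3 .d .l .v mdl
  | ld : Std3 .l .d .v mld

example (g : Gam) (x y : Md .v) : act g (x + y) = act g x + act g y := by
  rw [act_add]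

theorem Std3.equiv {a b c : Ty} {m : Md a → Md b → Md c} (h : Std3 a b c m) (g : Gam)
    (x : Md a) (y : Md b) : m (act g x) (act g y) = act g (m x y) := by
  cases h
  · exact mvv_act g x y
  · exact mdd_act g x y
  · exact mvl_act g x y
  · exact mlv_act g x y
  · exact mdl_act g x y
  · exact mld_act g x y

theorem Std3.add_left {a b c : Ty} {m : Md a → Md b → Md c} (h : Std3 a b c m)
    (x x' : Md a) (y : Md b) : m (x + x') y = m x y + m x' y := by
  cases h
  · exact wdg_add_left x x' y
  · exact wdgD_add_left x x' y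
  · exact lv_add_right y x x'
  · exact lv_add_left x x' y
  · exact ld_add_right y x x'
  · exact ld_add_left x x' y

theorem Std3.add_right {a b c : Ty} {m : Md a → Md b → Md c} (h : Std3 a b c m)
    (x : Md a) (y y' : Md b) : m x (y + y') = m x y + m x y' := by
  cases h
  · exact wdg_add_right x y y'
  · exact wdgD_add_right x y y'
  · exact lv_add_left y y' x
  · exact lv_add_right x y y'
  · exact ld_add_left y y' x
  · exact ld_add_right x y y'

/-! ### properties of modules and pairings -/

section props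
variable {X Y Z : Type*} [AddCommGroup X] [Module RG X] [AddCommGroup Y] [Module RG Y]
  [AddCommGroup Z] [Module RG Z]

/-- no nonzero vector is fixed by an element of order 15 -/
def Free15 (X : Type*) [AddCommGroup X] [Module RG X] : Prop :=
  ∀ g : Gam, orderOf g = 15 → ∀ x : X, act g x = x → x = 0

/-- the norm `1 + g + g² + g³` -/
noncomputable def nrm4 (g : Gam) (x : X) : X := x + act g x + act (g ^ 2) x + act (g ^ 3) x

/-- admissible pairings of `F_2 GL_4(2)`-modules: equivariant; vectors fixed by a common element of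
order 5 or 7 are orthogonal; norms of a common element of order 4 are orthogonal -/
structure Adm (p : X →+ Y →+ Z) : Prop where
  equiv : ∀ (g : Gam) (x : X) (y : Y), p (act g x) (act g y) = act g (p x y)
  fix : ∀ g : Gam, (orderOf g = 5 ∨ orderOf g = 7) → ∀ (x : X) (y : Y),
    act g x = x → act g y = y → p x y = 0
  four : ∀ g : Gam, orderOf g = 4 → ∀ (x : X) (y : Y), p (nrm4 g x) (nrm4 g y) = 0

/-- no left kernel -/
def PerfL (p : X →+ Y →+ Z) : Prop := ∀ x, (∀ y, p x y = 0) → x = 0
/-- no right kernel -/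
def PerfR (p : X →+ Y →+ Z) : Prop := ∀ y, (∀ x, p x y = 0) → y = 0

/-- `rj M X` : the common kernel of all homomorphisms `X → M` -/
noncomputable def rj (M X : Type*) [AddCommGroup M] [Module RG M] [AddCommGroup X] [Module RG X] :
    Submodule RG X := ⨅ f : X →ₗ[RG] M, LinearMap.ker f

theorem mem_rj {M : Type*} [AddCommGroup M] [Module RG M] {x : X} :
    x ∈ rj M X ↔ ∀ f : X →ₗ[RG] M, f x = 0 := by
  simp [rj, Submodule.mem_iInf]

/-- `X` embeds into a power of `M` -/
def Hg (M X : Type*) [AddCommGroup M] [Module RG M] [AddCommGroup X] [Module RG X] : Prop :=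
  ∀ x : X, (∀ f : X →ₗ[RG] M, f x = 0) → x = 0

/-- a unique maximal submodule (and one exists) -/
def IsLoc (X : Type*) [AddCommGroup X] [Module RG X] : Prop :=
  ∃ N : Submodule RG X, IsCoatom N ∧ ∀ P : Submodule RG X, P ≠ ⊤ → P ≤ N

/-- all simple quotients are of type `a` -/
def Heads (a : Ty) (X : Type*) [AddCommGroup X] [Module RG X] : Prop :=
  ∀ N : Submodule RG X, IsCoatom N →
    ∃ f : X →ₗ[RG] Md a, Function.Surjective f ∧ LinearMap.ker f = N

/-- `P / N` is isomorphic to `Md a` (for `N ≤ P`) -/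
def SecIso (a : Ty) {X : Type*} [AddCommGroup X] [Module RG X] (N P : Submodule RG X) : Prop :=
  ∃ f : P →ₗ[RG] Md a, Function.Surjective f ∧ ∀ x : P, f x = 0 ↔ (x : X) ∈ N

/-- every simple section of `X` is of type `a` -/
def AllC (a : Ty) (X : Type*) [AddCommGroup X] [Module RG X] : Prop :=
  ∀ N P : Submodule RG X, N ⋖ P → SecIso a N P

/-- every simple section of `X` is of one of the three types -/
def VDL (X : Type*) [AddCommGroup X] [Module RG X] : Prop :=
  ∀ N P : Submodule RG X, N ⋖ P → ∃ a, SecIso a N P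

end props

/-! ### twisting by inverse transpose, and duals -/

/-- inverse transpose on `GL_4(2)` -/
def sig : Gam →* Gam where
  toFun g := ⟨(g⁻¹).1ᵀ, g.1ᵀ, by
      rw [← Matrix.transpose_mul, ← Units.val_mul, mul_inv_cancel, Units.val_one,
        Matrix.transpose_one], by
      rw [← Matrix.transpose_mul, ← Units.val_mul, inv_mul_cancel, Units.val_one,
        Matrix.transpose_one]⟩
  map_one' := by
    apply Units.ext
    change ((1 : Gam)⁻¹).1ᵀ = 1
    rw [inv_one, Units.val_one, Matrix.transpose_one]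
  map_mul' g h := by
    apply Units.ext
    change ((g * h)⁻¹).1ᵀ = (g⁻¹).1ᵀ * (h⁻¹).1ᵀ
    rw [_root_.mul_inv_rev, ← Matrix.transpose_mul]
    rfl

theorem sig_val (g : Gam) : (sig g).1 = (g⁻¹).1ᵀ := rfl

theorem sig_sig (g : Gam) : sig (sig g) = g := by
  apply Units.ext
  change (((sig g)⁻¹).1)ᵀ = g.1
  change (g.1ᵀ)ᵀ = g.1
  rw [Matrix.transpose_transpose]

/-- the module twisted by inverse transpose -/
def Tw (X : Type u) : Type u := X

section tw
variable {X : Type u} [AddCommGroup X] [Module RG X]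
instance : AddCommGroup (Tw X) := inferInstanceAs (AddCommGroup X)
noncomputable instance : Module RG (Tw X) :=
  Module.compHom X (MonoidAlgebra.mapDomainRingHom (ZMod 2) sig)

theorem act_Tw (g : Gam) (x : Tw X) : act g x = @act X _ _ (sig g) x := by
  have h : MonoidAlgebra.mapDomainRingHom (ZMod 2) sig (MonoidAlgebra.of (ZMod 2) Gam g) =
      MonoidAlgebra.of (ZMod 2) Gam (sig g) := by
    simp [MonoidAlgebra.mapDomainRingHom, MonoidAlgebra.of]
  exact congrArg (fun r : RG => @HSMul.hSMul RG X X _ r x) h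
end tw

end Pool.Agent.A8
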