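import Pool.Agent.Helper89.A8.Stmts

/-!
# From `GL_4(2)` to `A_8`, all universes
-/

set_option autoImplicit false

namespace Pool.Agent.A8

universe u

theorem final0 (hM : S_MAIN) (hA8 : S_A8) (G : Type) [Group G] [Finite G] (K : Subgroup G)
    [K.Normal] (hK : IsPGroup 2 K) (e : G ⧸ K ≃* alternatingGroup (Fin 8))
    (h16 : ∀ g : G, orderOf g ≠ 16) (h20 : ∀ g : G, orderOf g ≠ 20)
    (h28 : ∀ g : G, orderOf g ≠ 28) (h30 : ∀ g : G, orderOf g ≠ 30) :
    ∀ g : G, orderOf g ≠ 24 := by
  obtain ⟨f⟩ := hA8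
  let π : G →* Gam := (f.toMonoidHom.comp e.toMonoidHom).comp (QuotientGroup.mk' K)
  have hker : π.ker = K := by
    ext x
    rw [MonoidHom.mem_ker]
    change f (e (QuotientGroup.mk' K x)) = 1 ↔ _
    rw [map_eq_one_iff f f.injective, map_eq_one_iff e e.injective, QuotientGroup.mk'_apply,
      QuotientGroup.eq_one_iff]
  apply hM G π
  exact
    { surj := by
        intro y
        obtain ⟨x, hx⟩ := QuotientGroup.mk'_surjective K (e.symm (f.symm y))
        refine ⟨x, ?_⟩
        change f (e (QuotientGroup.mk' K x)) = y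
        rw [hx, e.apply_symm_apply, f.apply_symm_apply]
      ker2 := by rw [hker]; exact hK
      n16 := h16
      n20 := h20
      n28 := h28
      n30 := h30 }

theorem final1 (hM : S_MAIN) (hA8 : S_A8) (G : Type u) [Group G] [Finite G] (K : Subgroup G)
    [K.Normal] (hK : IsPGroup 2 K) (e : G ⧸ K ≃* alternatingGroup (Fin 8))
    (h16 : ∀ g : G, orderOf g ≠ 16) (h20 : ∀ g : G, orderOf g ≠ 20)
    (h28 : ∀ g : G, orderOf g ≠ 28) (h30 : ∀ g : G, orderOf g ≠ 30) :
    ∀ g : G, orderOf g ≠ 24 := by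
  let s : Shrink.{0} G ≃* G := Shrink.mulEquiv
  have hfin : Finite (Shrink.{0} G) := Finite.of_equiv G s.symm.toEquiv
  let K' : Subgroup (Shrink.{0} G) := K.comap s.toMonoidHom
  have hN : K'.Normal := Subgroup.Normal.comap inferInstance _
  have hK' : IsPGroup 2 K' := hK.comap_of_injective s.toMonoidHom s.injective
  have hmap : K'.map (s : Shrink.{0} G →* G) = K :=
    Subgroup.map_comap_eq_self_of_surjective s.surjective K
  have e' : Shrink.{0} G ⧸ K' ≃* G ⧸ K := QuotientGroup.congr K' K s hmap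
  have ho : ∀ x : Shrink.{0} G, orderOf x = orderOf (s x) := fun x => (s.orderOf_eq x).symm
  have key := final0 hM hA8 (Shrink.{0} G) K' hK' (e'.trans e)
    (fun g => by rw [ho]; exact h16 _) (fun g => by rw [ho]; exact h20 _)
    (fun g => by rw [ho]; exact h28 _) (fun g => by rw [ho]; exact h30 _)
  intro g
  have := key (s.symm g)
  rwa [ho, s.apply_symm_apply] at this

end Pool.Agent.A8
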