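import Pool.Agent.Helper89.A8.Defs

/-!
# Group-level definitions
-/

set_option autoImplicit false

namespace Pool.Agent.A8

open Matrix

universe u

/-! ### explicit elements of `GL_4(2)` (acting on column vectors) -/

/-- an element of `GL_4(2)` from a matrix and its inverse -/
def mkG (A B : M4) (h : A * B = 1) (h' : B * A = 1) : Gam := ⟨A, B, h, h'⟩

/-- type 3B: trivial on `V₀ = <e₀,e₁>`, order 3 on `V₁ = <e₂,e₃>` -/
def gs : Gam := mkG !![1,0,0,0; 0,1,0,0; 0,0,0,1; 0,0,1,1] !![1,0,0,0; 0,1,0,0; 0,0,1,1; 0,0,1,0]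
  (by decide) (by decide)
/-- type 3B: order 3 on `V₀`, trivial on `V₁` -/
def gr : Gam := mkG !![0,1,0,0; 1,1,0,0; 0,0,1,0; 0,0,0,1] !![1,1,0,0; 1,0,0,0; 0,0,1,0; 0,0,0,1]
  (by decide) (by decide)
/-- the transvection with centre `e₀` and axis `e₁*`: `e₁ ↦ e₀ + e₁` -/
def gt : Gam := mkG !![1,1,0,0; 0,1,0,0; 0,0,1,0; 0,0,0,1] !![1,1,0,0; 0,1,0,0; 0,0,1,0; 0,0,0,1]
  (by decide) (by decide)
/-- order 7, fixes `e₀` and the functional `e₀*`; `gs gh gs⁻¹ = gh²` -/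
def gh : Gam := mkG !![1,0,0,0; 0,0,0,1; 0,1,0,1; 0,0,1,0] !![1,0,0,0; 0,1,1,0; 0,0,0,1; 0,1,0,0]
  (by decide) (by decide)
/-- order 7, fixes `e₁` and the functional `e₁*`; conjugate of `gh` under the exchange of
`e₀` and `e₁` -/
def gh' : Gam := mkG !![0,0,0,1; 0,1,0,0; 1,0,0,1; 0,0,1,0] !![1,0,1,0; 0,1,0,0; 0,0,0,1; 1,0,0,0]
  (by decide) (by decide)
/-- type 3A: fixed point free of order 3 -/
def ga : Gam := mkG !![0,1,0,0; 1,1,0,0; 0,0,0,1; 0,0,1,1] !![1,1,0,0; 1,0,0,0; 0,0,1,1; 0,0,1,0]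
  (by decide) (by decide)

/-- order 3 on `<e₁,e₂>`: `e₁ ↦ e₂ ↦ e₁ + e₂` -/
def gq : Gam := mkG !![1,0,0,0; 0,0,1,0; 0,1,1,0; 0,0,0,1] !![1,0,0,0; 0,1,1,0; 0,1,0,0; 0,0,0,1]
  (by decide) (by decide)
/-- `e₂ ↦ e₁ + e₂` -/
def x1 : Gam := mkG !![1,0,0,0; 0,1,1,0; 0,0,1,0; 0,0,0,1] !![1,0,0,0; 0,1,1,0; 0,0,1,0; 0,0,0,1]
  (by decide) (by decide)
/-- `e₃ ↦ e₂ + e₃`; inverts `gs` and commutes with `gr` -/
def gg : Gam := mkG !![1,0,0,0; 0,1,0,0; 0,0,1,1; 0,0,0,1] !![1,0,0,0; 0,1,0,0; 0,0,1,1; 0,0,0,1]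
  (by decide) (by decide)
/-- exchanges `e₀` with `e₁` and `e₂` with `e₃` -/
def gc : Gam := mkG !![0,1,0,0; 1,0,0,0; 0,0,0,1; 0,0,1,0] !![0,1,0,0; 1,0,0,0; 0,0,0,1; 0,0,1,0]
  (by decide) (by decide)

/-- the elements of order 3 in the three minimal parabolic subgroups -/
def g3 : Fin 3 → Gam := ![gr, gq, gs]
/-- the simple root elements, generating the upper unitriangular group -/
def xr : Fin 3 → Gam := ![gt, x1, gg]

/-- `w` is a common eigenvector, fixed by the upper unitriangular group, of the three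
0-Hecke operators `w ↦ w + g w + g² w`, `g = g3 i`; eigenvalue 0 exactly for `J i = true` -/
structure HV {X : Type*} [AddCommGroup X] [Module RG X] (J : Fin 3 → Bool) (w : X) : Prop where
  ne : w ≠ 0
  fix : ∀ i, act (xr i) w = w
  eig0 : ∀ i, J i = true → w + act (g3 i) w + act (g3 i ^ 2) w = 0
  eig1 : ∀ i, J i = false → act (g3 i) w = w

/-- the vector `e₀` of `V` -/
def vE0 : MV := ![1, 0, 0, 0]
/-- the vector `e₁` of `V` -/
def vE1 : MV := ![0, 1, 0, 0]
/-- the functional `e₀*` -/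
def dE0 : MD := ![1, 0, 0, 0]
/-- the functional `e₁*` -/
def dE1 : MD := ![0, 1, 0, 0]
/-- the bivector `e₀ ∧ e₁` -/
def lE01 : ML := ![1, 0, 0, 0, 0, 0]
/-- the bivector `e₂ ∧ e₃` -/
def lE23 : ML := ![0, 0, 0, 0, 0, 1]

/-- the eight transvections (and 1) with centre `e₀`: `w ↦ w + η(w) e₀` with `η(e₀) = 0` -/
def TT : Set Gam := {g | g.1 0 0 = 1 ∧ ∀ i : Fin 3, ∀ j, g.1 i.succ j = (1 : M4) i.succ j}

/-- the duality: inverse transpose followed by conjugation by `gc`; it fixes `gs`, `gr`, `gt`,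
`ga` -/
def dlG : Gam →* Gam := (MulAut.conj gc).toMonoidHom.comp sig

theorem dlG_gs : dlG gs = gs := by
  apply Units.ext
  decide
theorem dlG_gr : dlG gr = gr := by
  apply Units.ext
  decide
theorem dlG_gt : dlG gt = gt := by
  apply Units.ext
  decide
theorem dlG_ga : dlG ga = ga := by
  apply Units.ext
  decide
theorem gh'_eq : gh' = gr * gt * gh * gt⁻¹ * gr⁻¹ := by
  apply Units.ext
  decide
theorem ga_eq : ga = gs * gr := by
  apply Units.ext
  decide
theorem gs_gr : gs * gr = gr * gs := by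
  apply Units.ext
  decide
theorem gt_gs : gt * gs = gs * gt := by
  apply Units.ext
  decide
theorem gt_gr : gt * gr * gt⁻¹ = gr⁻¹ := by
  apply Units.ext
  decide
theorem gg_gs : gg * gs * gg⁻¹ = gs⁻¹ := by
  apply Units.ext
  decide
theorem gg_gr : gg * gr = gr * gg := by
  apply Units.ext
  decide

theorem gs_gh : gs * gh * gs⁻¹ = gh ^ 2 := by
  apply Units.ext
  decide
theorem gs_gh' : gs * gh' * gs⁻¹ = gh' ^ 2 := by
  apply Units.ext
  decide
theorem gh_7 : gh ^ 7 = 1 := by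
  apply Units.ext
  decide

/-! ### configurations -/

/-- `G` is an extension of the 2-group `ker π` by `GL_4(2)` without elements of order
16, 20, 28, 30 -/
structure Cfg {G : Type u} [Group G] (π : G →* Gam) : Prop where
  surj : Function.Surjective π
  ker2 : IsPGroup 2 π.ker
  n16 : ∀ g : G, orderOf g ≠ 16
  n20 : ∀ g : G, orderOf g ≠ 20
  n28 : ∀ g : G, orderOf g ≠ 28
  n30 : ∀ g : G, orderOf g ≠ 30

section
variable {G : Type u} [Group G]

/-- `φ` restricted to the subgroup `X` is a homomorphism to the module `M`, equivariant for `π` -/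
structure HomOn (π : G →* Gam) (X : Subgroup G) {M : Type*} [AddCommGroup M] [Module RG M]
    (φ : G → M) : Prop where
  mul : ∀ x ∈ X, ∀ y ∈ X, φ (x * y) = φ x + φ y
  conj : ∀ g : G, ∀ x ∈ X, φ (g * x * g⁻¹) = act (π g) (φ x)

/-- `φ` identifies `X / Y` with the module `M` -/
structure Sec (π : G →* Gam) (X Y : Subgroup G) {M : Type*} [AddCommGroup M] [Module RG M]
    (φ : G → M) : Prop extends HomOn π X φ where
  surj : ∀ m : M, ∃ x ∈ X, φ x = m
  ker : ∀ x ∈ X, φ x = 0 ↔ x ∈ Y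

/-- `R` is a local subgroup of type `a`: normal in `G`, contained in `ker π`, with a unique maximal
`G`-subgroup, namely the kernel of the surjective equivariant homomorphism `φ : R → Md a` -/
structure Loc (π : G →* Gam) (R : Subgroup G) (a : Ty) (φ : G → Md a) : Prop
    extends HomOn π R φ where
  normal : R.Normal
  le : R ≤ π.ker
  surj : ∀ m : Md a, ∃ x ∈ R, φ x = m
  top : ∀ X : Subgroup G, X.Normal → X ≤ R → (∃ x ∈ X, φ x ≠ 0) → X = R

/-- the product of all local subgroups of type `a` -/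
def Kt (π : G →* Gam) (a : Ty) : Subgroup G := sSup {R | ∃ φ : G → Md a, Loc π R a φ}

/-- centraliser in the kernel -/
def CK (π : G →* Gam) (S : Subgroup G) : Subgroup G := Subgroup.centralizer (S : Set G) ⊓ π.ker

/-- centre of the kernel -/
def ZK (π : G →* Gam) : Subgroup G := CK π π.ker

/-- `X / Y` embeds (equivariantly) into a power of `Md a` : an element of `X` killed by all
equivariant homomorphisms `X → Md a` that are trivial on `Y` lies in `Y` -/
def GHg (π : G →* Gam) (a : Ty) (X Y : Subgroup G) : Prop :=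
  ∀ x ∈ X, (∀ φ : G → Md a, HomOn π X φ → (∀ y ∈ Y, φ y = 0) → φ x = 0) → x ∈ Y

/-- a frame: `s, r` generate `3²`, `τ` is an element over the transvection `gt`, commuting with `s`
and inverting `r` -/
structure Frame (π : G →* Gam) (s r τ : G) : Prop where
  s3 : s ^ 3 = 1
  r3 : r ^ 3 = 1
  sr : s * r = r * s
  τs : τ * s = s * τ
  τr : τ * r * τ⁻¹ = r⁻¹
  πs : π s = gs
  πr : π r = gr
  πτ : π τ = gt

/-- an element of order 7 over `gh`, normalised by `s` -/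
structure IsRho (π : G →* Gam) (s ρ : G) : Prop where
  r7 : ρ ^ 7 = 1
  πρ : π ρ = gh
  sρ : s * ρ * s⁻¹ = ρ ^ 2

/-- `rjT π a X T` : the elements of `X` killed by all equivariant homomorphisms `X → Md a` which
are trivial on `T` -/
def rjT (π : G →* Gam) (a : Ty) (X T : Subgroup G) : Subgroup G where
  carrier := {x | x ∈ X ∧ ∀ φ : G → Md a, HomOn π X φ → (∀ t ∈ T, φ t = 0) → φ x = 0}
  one_mem' := by
    refine ⟨X.one_mem, fun φ h _ => ?_⟩
    have h1 := h.mul 1 X.one_mem 1 X.one_mem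
    rw [mul_one] at h1
    exact left_eq_add.1 h1
  mul_mem' := by
    rintro a b ⟨ha, ha'⟩ ⟨hb, hb'⟩
    refine ⟨X.mul_mem ha hb, fun φ h ht => ?_⟩
    rw [h.mul a ha b hb, ha' φ h ht, hb' φ h ht, add_zero]
  inv_mem' := by
    rintro a ⟨ha, ha'⟩
    refine ⟨X.inv_mem ha, fun φ h ht => ?_⟩
    have h1 := h.mul 1 X.one_mem 1 X.one_mem
    rw [mul_one] at h1
    have h1' : φ 1 = 0 := left_eq_add.1 h1
    have h2 := h.mul a ha a⁻¹ (X.inv_mem ha)
    rw [mul_inv_cancel, h1', ha' φ h ht, zero_add] at h2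
    exact h2.symm

/-- the setting (E) -/
structure SetE (π : G →* Gam) (Y0 Y2 : Subgroup G) : Prop where
  n0 : Y0.Normal
  n2 : Y2.Normal
  le2 : Y2 ≤ Y0
  le0 : Y0 ≤ ZK π
  h0 : GHg π .v π.ker Y0
  h2 : GHg π .l Y0 Y2
  h3 : GHg π .v Y2 ⊥
  el : ∀ x ∈ Y0, x * x = 1

/-- an `F`-invariant cover `U` of the transvection group, with `U ∩ K ≤ Y0` -/
structure IsU (π : G →* Gam) (s ρ : G) (Y0 U : Subgroup G) : Prop where
  nρ : ∀ u ∈ U, ρ * u * ρ⁻¹ ∈ U
  ns : ∀ u ∈ U, s * u * s⁻¹ ∈ U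
  map : ∀ u ∈ U, π u ∈ TT
  surj : ∀ t ∈ TT, ∃ u ∈ U, π u = t
  ker : ∀ u ∈ U, π u = 1 → u ∈ Y0

end

end Pool.Agent.A8
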