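import Pool.Agent.Helper89.A8.Stmts
import Pool.Agent.Helper89.A8.MTools

/-!
# Sub-statements for the structure theorem for pairings (S_MT)
-/

set_option autoImplicit false

namespace Pool.Agent.A8

/-- the case `Z = V*` -/
def S_MTA : Prop := ∀ (X Y : Type) [AddCommGroup X] [Module RG X] [Finite X]
  [AddCommGroup Y] [Module RG Y] [Finite Y],
  Free15 X → Free15 Y → Heads .v X → Heads .l Y →
  ∀ p : X →+ Y →+ MD, Adm p → PerfL p → PerfR p → Hg MV X ∧ Hg ML Y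

/-- the unique simple submodule of `Z` is `V*` or `L` -/
def S_MTB : Prop := ∀ (X Y Z : Type) [AddCommGroup X] [Module RG X] [Finite X]
  [AddCommGroup Y] [Module RG Y] [Finite Y] [AddCommGroup Z] [Module RG Z] [Finite Z],
  Free15 X → Free15 Y → Free15 Z → Heads .v X → Heads .l Y →
  ∀ p : X →+ Y →+ Z, Adm p → PerfL p → PerfR p →
  (∀ N : Submodule RG Z, (∀ x y, p x y ∈ N) → N = ⊤) →
  ∀ M : Submodule RG Z, M ≠ ⊥ → (∀ P : Submodule RG Z, P ≠ ⊥ → M ≤ P) →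
  Nonempty (M ≃ₗ[RG] MD) ∨ Nonempty (M ≃ₗ[RG] ML)

/-- in the case `V*`, `Z` is `V*` -/
def S_MTD : Prop := ∀ (Z : Type) [AddCommGroup Z] [Module RG Z] [Finite Z]
  (M : Submodule RG Z), Nonempty (M ≃ₗ[RG] MD) → (∀ P : Submodule RG Z, P ≠ ⊥ → M ≤ P) →
  Heads .d Z → Hg ML (rj MD (Z ⧸ M)) → M = ⊤

/-- the case `L` -/
def S_MTL : Prop := ∀ (X Y Z : Type) [AddCommGroup X] [Module RG X] [Finite X]
  [AddCommGroup Y] [Module RG Y] [Finite Y] [AddCommGroup Z] [Module RG Z] [Finite Z],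
  Free15 X → Free15 Y → Free15 Z → Heads .v X → Heads .l Y →
  ∀ (p : X →+ Y →+ Z) (hp : Adm p), PerfL p → PerfR p →
  (∀ N : Submodule RG Z, (∀ x y, p x y ∈ N) → N = ⊤) →
  ∀ M : Submodule RG Z, Nonempty (M ≃ₗ[RG] ML) → (∀ P : Submodule RG Z, P ≠ ⊥ → M ≤ P) →
  Hg MV (X ⧸ kL hp M) → Hg MV (rj ML (Y ⧸ kR hp M)) →
  Hg MV X ∧ Hg MV (rj ML Y) ∧ Hg ML (rj MD Z)

end Pool.Agent.A8
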